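import Pool.Agent.Lib.MP_1ae3da_al.L.Hp
import Pool.Agent.Lib.MP_1ae3da_al.J.D6

/-! All central quotients of a split Tits system of type `D`. -/

namespace Pool.Agent.Lib.MP_1ae3da_al.JM

open SLI CT CT.Z Submodule

variable {p r k : ℕ} {X Y : Type} [Group X] [Finite X] [Group Y] [Finite Y] [hp : Fact p.Prime]
  [hr : Fact r.Prime] {U : Sylow r X} {N : Subgroup X} {n : ℕ → X} {g : MulAut X} {F : Type}
  [Field F] [CharZero F]

theorem TD.cor2 (h : TD p k U N n g) (h2 : p ≠ 2) {κ : Type} [Field κ] {O R : Subring F}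
    {ρ : F → κ} {GG : Subgroup (RingAut F)} (hP : PM p O R ρ GG) {π : X →* Y}
    (hπ : Function.Surjective π) (hk : π.ker ≤ Subgroup.center X)
    (v : BV p (U.mapSurjective hπ) (N.map π)) :
    ∃ Θ, Cor (Ga GG v.D) (N.map π) (av F (U.mapSurjective hπ)) Θ := by
  obtain ⟨ψ, hu⟩ := pu_ex (F := F) hπ hk (hk.trans h.v.q_cen)
  generalize U.mapSurjective hπ = V at v hu
  generalize N.map π = M at v hu
  have := hP.algF
  obtain ⟨γ0, hγ0, hg⟩ := ga_aut (F := F) 1 g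
  obtain ⟨d, du, hd⟩ := h.dat h2 hP hγ0 hg
  have ho := (h.good hγ0 hg hd).out
  generalize d.s = s at ho
  have dk := hd.k
  have k1 : 1 < k := by have := h.k5; omega
  obtain ⟨a1, a2, a3⟩ := nat_gen hγ0 hg h.gU
  obtain ⟨c0, c0n, s0⟩ := h.s0 hγ0 hg hd ho
  have hS : ∀ t ∈ Tor U N, Lm (jt F U t) ∈ d.S := fun t ht =>
    (hd.S _).2 ⟨_, subset_span ⟨t, ht, rfl⟩, rfl⟩
  have xL : ∀ z, d.x * Lm z = Lm (γ0 z) * d.x := fun z => LinearMap.ext fun a => by
    change d.x (z * a) = γ0 z * d.x a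
    rw [hd.x, hd.x, map_mul]
  obtain ⟨Θ, t1, t2, t0⟩ := h.w.lift (fun t => Lm (jt F (U : Subgroup X) t))
    (by rw [jt_one, map_one]) (fun t ht t' ht' => by rw [jt_mul ht ht', map_mul]) s
    (fun t ht => ho.n0 _ (hS t ht) _ (by rw [xL, a2])) (hd.η ▸ ho.q0)
    (fun i h0 hi t ht => by
      obtain ⟨a, rfl⟩ : ∃ a, i = a + 1 := ⟨i - 1, by omega⟩
      exact ho.n1 a (dk ▸ hi) _ (hS t ht) _ (by
        rw [hd.T, ← map_mul, ← map_mul, tau_jt h.v (h.w.mem _ hi) ht]))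
    (fun i h0 hi => by
      obtain ⟨a, rfl⟩ : ∃ a, i = a + 1 := ⟨i - 1, by omega⟩
      exact hd.h a ▸ ho.q1 a (dk ▸ hi)) (dk ▸ ho.br)
  have ind : ∀ P : N → Prop, (∀ t : N, (t : X) ∈ Tor U N → P t) →
      (∀ i (hi : i < k) (m : N), AA (U : Subgroup X) (n i) m → P m →
        P (⟨n i, h.w.mem i hi⟩ * m)) → ∀ m, P m := fun P p0 p1 m =>
    h.ts.red h.v (fun x => ∀ hx : x ∈ N, P ⟨x, hx⟩) (fun t ht _ => p0 _ ht)
      (fun i hi m hm ha hP _ => p1 i hi ⟨m, hm⟩ ha (hP hm)) m m.2 m.2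
  have tg : ∀ x y : N, (y : X) = g x → Θ y 1 = γ0 (Θ x 1) := fun x y e => by
    have := congrArg (fun f : Module.End F (MonoidAlgebra F X) => f 1) (t0 x y e)
    simp only [s0, Module.End.mul_apply, LinearMap.smul_apply, map_smul, hd.x, map_one] at this
    exact (smul_right_injective _ c0n this).symm
  have gen : ∀ i (hi : i < k), Θ ⟨n i, h.w.mem i hi⟩ = Lm (Θ ⟨n i, h.w.mem i hi⟩ 1) ∧
      av F (U : Subgroup X) * Θ ⟨n i, h.w.mem i hi⟩ 1 = Θ ⟨n i, h.w.mem i hi⟩ 1 * av F U := by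
    have key : ∀ i (hi : i < k), 0 < i → Θ ⟨n i, h.w.mem i hi⟩ = Lm (Θ ⟨n i, h.w.mem i hi⟩ 1) ∧
        av F (U : Subgroup X) * Θ ⟨n i, h.w.mem i hi⟩ 1 = Θ ⟨n i, h.w.mem i hi⟩ 1 * av F U :=
      fun i hi h0 => by
        obtain ⟨y, e1, e2⟩ := h.rng hγ0 hg hd ho h0 hi
        have e3 : Lm y 1 = y := mul_one y
        rw [t2 i h0 hi _ rfl, e1, e3]
        exact ⟨rfl, e2⟩
    intro i hi
    rcases Nat.eq_zero_or_pos i with rfl | h0
    · obtain ⟨e1, e2⟩ := key 1 k1 one_pos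
      have e3 := t0 ⟨_, h.w.mem 1 k1⟩ ⟨_, h.w.mem 0 hi⟩ h.w.g1.symm
      rw [tg ⟨_, h.w.mem 1 k1⟩ ⟨_, h.w.mem 0 hi⟩ h.w.g1.symm]
      refine ⟨?_, by rw [← a1, ← map_mul, ← map_mul, e2]⟩
      rw [e1, s0, smul_mul_assoc, xL, ← smul_mul_assoc, smul_mul_assoc, ← mul_smul_comm, ← s0] at e3
      have q := ho.q0
      rw [hd.η] at q
      rw [← mul_one (Θ _), ← q, ← mul_assoc, ← e3, mul_assoc, q, mul_one]
    · exact key i hi h0
  have L1 : ∀ y : MonoidAlgebra F X, Lm y 1 = y := mul_one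
  have all : ∀ m, Θ m = Lm (Θ m 1) ∧ av F (U : Subgroup X) * Θ m 1 = Θ m 1 * av F U := by
    refine ind _ (fun t ht => ?_) fun i hi m _ hm => ?_
    · rw [t1 t ht, L1]
      exact ⟨rfl, e_jt ht⟩
    · obtain ⟨e1, e2⟩ := gen i hi
      rw [map_mul, e1, hm.1, ← map_mul, L1]
      exact ⟨rfl, by rw [← mul_assoc, e2, mul_assoc, hm.2, mul_assoc]⟩
  obtain ⟨θ, hθ⟩ : ∃ θ : N → MonoidAlgebra F X, ∀ m, Θ m 1 = θ m := ⟨_, fun _ => rfl⟩
  simp only [hθ] at all tg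
  have mul : ∀ x y, θ (x * y) = θ x * θ y := fun x y => by
    rw [← hθ, map_mul, (all x).1, (all y).1, ← map_mul, L1]
  have θt : ∀ t : N, (t : X) ∈ Tor U N → θ t = jt F (U : Subgroup X) (t : X) := fun t ht => by
    rw [← hθ, t1 t ht, L1]
  have spn : ∀ m ∈ N, an F (U : Subgroup X) m ∈
      span F (Set.range fun m => θ m * av F (U : Subgroup X)) := by
    intro m hm
    have ml : ∀ (φ : N → MonoidAlgebra F X), (∀ x m, θ x * φ m = φ (x * m)) →
        ∀ y ∈ span F (Set.range θ), ∀ z ∈ span F (Set.range φ), y * z ∈ span F (Set.range φ) :=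
      fun φ hφ y hy z hz => by
        have := mul_mem_mul hy hz
        rw [span_mul_span] at this
        refine span_le.2 ?_ this
        rintro _ ⟨_, ⟨x, rfl⟩, _, ⟨m, rfl⟩, rfl⟩
        exact subset_span ⟨x * m, (hφ x m).symm⟩
    let B : Subalgebra F (Module.End F (MonoidAlgebra F X)) :=
      { carrier := {y | ∀ z ∈ span F (Set.range θ), y z ∈ span F (Set.range θ)}
        mul_mem' := fun ha hb z hz => ha _ (hb z hz)
        add_mem' := fun ha hb z hz => add_mem (ha z hz) (hb z hz)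
        algebraMap_mem' := fun c z hz => smul_mem _ c hz }
    have lb : ∀ y ∈ span F (Set.range θ), Lm y ∈ B := fun y hy z hz =>
      ml θ (fun x m => (mul x m).symm) y hy z hz
    have gb : ∀ z ∈ span F (Set.range θ), γ0 z ∈ span F (Set.range θ) := fun z hz => by
      rw [← hd.x]
      refine (span_le (p := Submodule.comap d.x (span F (Set.range θ)))).2 ?_ hz
      rintro _ ⟨m, rfl⟩
      exact subset_span ⟨⟨g m, (h.w.gN _).2 m.2⟩, (tg m _ rfl).trans (hd.x _).symm⟩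
    have hB := (ho.gen B (fun y hy => by
      obtain ⟨z, hz, rfl⟩ := (hd.S y).1 hy
      refine lb z (span_mono ?_ hz)
      rintro _ ⟨t, ht, rfl⟩
      exact ⟨⟨t, ht.1⟩, θt _ ht⟩) fun i hi => by
        rcases Nat.eq_zero_or_pos i with rfl | h0
        · rw [s0]
          exact B.smul_mem (fun z hz => hd.x z ▸ gb z hz) _
        · rw [← t2 i h0 (dk ▸ hi) ⟨_, h.w.mem i (dk ▸ hi)⟩ rfl, (all _).1]
          exact lb _ (subset_span ⟨_, rfl⟩)).2
    have o : (1 : MonoidAlgebra F X) ∈ span F (Set.range θ) :=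
      subset_span ⟨1, by rw [θt 1 (one_mem _)]; exact jt_one⟩
    have hτ : ∀ i, 0 < i → i < k → tau F U (n i) ∈ span F (Set.range θ) := fun i h0 hi => by
      obtain ⟨a, rfl⟩ : ∃ a, i = a + 1 := ⟨i - 1, by omega⟩
      have := hB a (dk ▸ hi) 1 o
      rwa [hd.T, L1] at this
    refine ind (fun m => an F (U : Subgroup X) (m : X) ∈
      span F (Set.range fun m => θ m * av F (U : Subgroup X)))
      (fun t ht => subset_span ⟨t, ?_⟩) (fun i hi m ha hm => ?_) ⟨m, hm⟩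
    · change θ t * _ = _
      rw [θt t ht, jt_e, an_nrm ht.2]
    have q : (Qn (U : Subgroup X) (n i) : F) ≠ 0 :=
      Nat.cast_ne_zero.2 (by have := qn_gt (h.w.mem i hi) (h.w.nt hi); omega)
    change an F _ (n i * m) ∈ _
    rw [← aa_an ha, ← smul_mem_iff _ q, ← tau_an]
    refine ml _ (fun x m => by rw [mul, mul_assoc]) _ ?_ _ hm
    rcases Nat.eq_zero_or_pos i with rfl | h0
    · rw [← h.w.g1, ← a3]
      exact gb _ (hτ 1 one_pos k1)
    · exact hτ i h0 hi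
  have wd : ∀ {π ψ}, Pu U N V M π ψ → ∀ x y : N, π x = π y → ψ (θ x) = ψ (θ y) :=
    fun {π ψ} hu x y e => by
      have k : π ((x * y⁻¹ : N) : X) = 1 := by
        rw [Subgroup.coe_mul, Subgroup.coe_inv, map_mul, map_inv, e, mul_inv_cancel]
      rw [← inv_mul_cancel_right x y, mul, map_mul, θt _ (hu.kT k), hu.jt, k, jt_one, one_mul]
  choose l l1 l2 using fun y : M => hu.exN y.2
  have cm : ∀ m, av F (V : Subgroup Y) * ψ (θ m) = ψ (θ m) * av F V := fun m => by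
    rw [← hu.av, ← map_mul, (all m).2, map_mul]
  refine v.cor (fun y => ψ (θ ⟨l y, l1 y⟩) * av F V) (fun x y => ?_) (fun t ht => ?_)
    (fun m hm => ?_) ?_
  · rw [wd hu _ (⟨l x, l1 x⟩ * ⟨l y, l1 y⟩) (by
        simp only [Subgroup.coe_mul, map_mul, l2]), mul, map_mul, mul_assoc _ (av F _),
      ← mul_assoc (av F _), cm, mul_assoc (ψ (θ _)) (av F _), av_idem, mul_assoc]
  · rw [θt _ (hu.memT.1 ((l2 t).symm ▸ ht)), hu.jt, l2, jt_e]
  · obtain ⟨m, hm', rfl⟩ := hu.exN hm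
    rw [← hu.an]
    have := spn m hm'
    generalize an F (U : Subgroup X) m = z at this
    induction this using span_induction with
    | mem z hz =>
      obtain ⟨x, rfl⟩ := hz
      exact subset_span ⟨⟨π x, hu.memN x.2⟩, by
        rw [map_mul, hu.av]
        exact congrArg (· * _) (wd hu _ _ (l2 _))⟩
    | zero => exact map_zero ψ ▸ zero_mem _
    | add a b _ _ ha hb => exact map_add ψ a b ▸ add_mem ha hb
    | smul c a _ ha => exact hu.l c a ▸ smul_mem _ c ha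
  intro σ hσ γ hγ δ hδ hU hN
  have pos : ∀ {π ψ π' ψ'}, Pu U N V M π ψ → Pu U N V M π' ψ' →
      (∀ i, i < k → δ (π' (n i)) * (π (n i))⁻¹ ∈ Tor V M) → ∀ i (hi : i < k), 0 < i →
      ∀ y : N, π y = δ (π' (n i)) → γ (ψ' (θ ⟨n i, h.w.mem i hi⟩)) = ψ (θ y) :=
    fun {π ψ π' ψ'} hu hu' rg i hi h0 y e => by
      have ex := fun i hi => hu.hg hu' v hγ hδ hU hN (h.w.mem i hi) (h.w.nt hi) (h.w.sq i hi)
        (h.one i hi) (rg i hi)
      obtain ⟨c, c1, c2, c3⟩ := ex i hi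
      refine (h.nat2 hγ0 hg hd ho (du σ hσ) hu.l
        (fun c a => (congrArg γ (hu'.l c a)).trans (hγ _ _))
        (fun i hi => (ex i hi).imp fun _ e => ⟨e.1, e.2.2⟩) h0 hi c1 c3
        ((t2 i h0 hi ⟨_, h.w.mem i hi⟩ rfl).symm.trans (all _).1)).trans ?_
      rw [← θt ⟨c, c1.1⟩ c1, ← θt ⟨c⁻¹, (inv_mem c1).1⟩ (inv_mem c1), ← mul, ← mul]
      exact wd hu _ _ (c2.symm.trans e.symm)
  have cg : ∀ {π ψ}, Pu U N V M π ψ → Pu U N V M (π.comp g.toMonoidHom) (ψ.comp γ0) :=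
    fun hu => hu.comp g h.gU h.w.gN hγ0 hg
  have one : ∀ {π ψ π' ψ'}, Pu U N V M π ψ → Pu U N V M π' ψ' →
      (∀ i, i < k → δ (π' (n i)) * (π (n i))⁻¹ ∈ Tor V M) →
      ∀ x y : N, π y = δ (π' x) → γ (ψ' (θ x)) = ψ (θ y) := fun {π ψ π' ψ'} hu hu' rg => by
    refine ind (fun x => ∀ y : N, π y = δ (π' x) → γ (ψ' (θ x)) = ψ (θ y)) (fun t ht y e => ?_)
      fun i hi m _ hm y e => ?_
    · rw [θt t ht, hu'.jt, (nat_gen hγ hδ hU).2.1,
        θt y (hu.memT.1 (e ▸ (map_T δ hU hN _).2 (hu'.memT.2 ht))), hu.jt, e]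
    obtain ⟨a, ha, ea⟩ := hu.exN ((hN _).2 (hu'.memN (h.w.mem i hi)))
    obtain ⟨b, hb, eb⟩ := hu.exN ((hN _).2 (hu'.memN m.2))
    rw [wd hu y (⟨a, ha⟩ * ⟨b, hb⟩) (by
      simp only [e, Subgroup.coe_mul, map_mul, ea, eb]), mul, mul, map_mul, map_mul, map_mul,
      hm ⟨b, hb⟩ eb]
    congr 1
    rcases Nat.eq_zero_or_pos i with rfl | h0
    swap
    · exact pos hu hu' rg i hi h0 _ ea
    have gn : ∀ i, i < k → ∃ j, j < k ∧ g (n i) = n j := fun i hi => by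
      rcases i with _ | _ | i
      · exact ⟨1, k1, h.w.db_g0⟩
      · exact ⟨0, by omega, h.w.g1⟩
      · exact ⟨_, hi, h.w.g2 _ (by omega) hi⟩
    have := pos (cg hu) (cg hu') (fun i hi => by
        obtain ⟨j, hj, e⟩ := gn i hi
        change δ (π' (g (n i))) * (π (g (n i)))⁻¹ ∈ _
        rw [e]
        exact rg j hj) 1 k1 one_pos ⟨g a, (h.w.gN _).2 ha⟩
      (by change π (g (g a)) = δ (π' (g (n 1))); rw [h.w.g1, h.w.gg, ea])
    change γ (ψ' (γ0 _)) = ψ (γ0 _) at this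
    rwa [← tg _ ⟨n 0, h.w.mem 0 hi⟩ h.w.g1.symm, ← tg _ ⟨a, ha⟩ (h.w.gg a).symm] at this
  intro x y e
  rw [map_mul, (nat_gen hγ hδ hU).1]
  congr 1
  rcases hu.rigid h.w h.k5 δ (map_T δ hU hN) fun i hi => (hu.ts h.ts).perm v δ hU hN hi with
    rg | rg
  · exact one hu hu rg _ _ (by rw [l2, l2, e])
  have := one hu (cg hu) rg ⟨g (l x), (h.w.gN _).2 (l1 x)⟩ ⟨l y, l1 y⟩
    (by change π (l y) = δ (π (g (g (l x)))); rw [h.w.gg, l2, l2, e])
  change γ (ψ (γ0 _)) = _ at this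
  rwa [← tg _ ⟨l x, l1 x⟩ (h.w.gg _).symm] at this

theorem TD.ind2 (h : TD p k U N n g) (h2 : p ≠ 2) {π : X →* Y} (hπ : Function.Surjective π)
    (hk : π.ker ≤ Subgroup.center X) (hk' : ∀ x ∈ π.ker, (∃ c, x ^ p ^ c = 1) → x = 1)
    (R : Sylow p Y) (hR : (R : Subgroup Y) ≤ N.map π) : NSV.IndN p Y R (N.map π) := by
  have k0 : 0 < k := by have := h.k5; omega
  obtain ⟨ψ, hu⟩ := pu_ex (F := ℚ) hπ hk (hk.trans h.v.q_cen)
  refine ((h.v.qmap hπ hk hk').ind (fun e => h.w.nt k0 (hu.memT.1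
    (Subgroup.mem_inf.2 ⟨hu.memN (h.w.mem 0 k0), ?_⟩))) fun F κ _ _ O R ρ GG hP => ?_).2 R hR
  · change π (n 0) ∈ Subgroup.normalizer (((U.mapSurjective hπ : Sylow r Y) : Subgroup Y) : Set Y)
    rw [e]
    exact Subgroup.mem_normalizer_iff.2 fun x => by simp
  · have := hP.charF
    exact h.cor2 h2 hP hπ hk _

omit [Finite Y] in
/-- the inductive condition for every quotient by a central `p'`-subgroup. -/
theorem TD.all2 (h : TD p k U N n g) (h2 : p ≠ 2) {π : X →* Y} (hπ : Function.Surjective π)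
    (hk : π.ker ≤ Subgroup.center X) (hk' : ∀ x ∈ π.ker, (∃ c, x ^ p ^ c = 1) → x = 1)
    (R : Sylow p Y) : ∃ M, NSV.IndN p Y R M := by
  have : Finite Y := Finite.of_surjective π hπ
  obtain ⟨R₀, hR⟩ := h.v.ex_syl
  obtain ⟨c, hc⟩ := MulAction.exists_smul_eq Y (R₀.mapSurjective hπ) R
  let ρ : X →* Y := (MulAut.conj c).toMonoidHom.comp π
  have hρ : Function.Surjective ρ := (MulAut.conj c).surjective.comp hπ
  have hkρ : ρ.ker = π.ker := by
    ext x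
    exact map_eq_one_iff (MulAut.conj c) (MulAut.conj c).injective
  refine ⟨_, h.ind2 h2 hρ (hkρ ▸ hk) (hkρ ▸ hk') R ?_⟩
  have : (R : Subgroup Y) = (R₀ : Subgroup X).map ρ := by
    rw [← hc, ← Subgroup.map_map]
    rfl
  exact this ▸ Subgroup.map_mono hR

end Pool.Agent.Lib.MP_1ae3da_al.JM
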