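import Pool.Agent.Lib.MP_1ae3da_al.C2.Bo7
import Pool.Agent.Lib.MP_1ae3da_al.L.Hs
import Pool.Agent.Lib.MP_1ae3da_al.A.Ta

/-! Split Tits systems as leaves of the reduction. -/

namespace Pool.Agent.Lib.MP_1ae3da_al.WG

open Function Subgroup Pool.Agent.Lib.McK CT CT.A JM

/-- the adjacent transpositions. -/
def lsw (m i : ℕ) : Equiv.Perm (Fin (m + 1)) :=
  if h : i < m then Equiv.swap (Fin.castSucc ⟨i, h⟩) (Fin.succ ⟨i, h⟩) else 1

theorem lsw_sq (m i : ℕ) : lsw m i * lsw m i = 1 := by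
  unfold lsw
  split_ifs
  exacts [Equiv.swap_mul_self _ _, one_mul _]

theorem lsw_brd (m : ℕ) : Brd m (lsw m) := by
  refine ⟨fun i j h hj => ?_, fun i hi => ?_⟩
  · rw [lsw, lsw, dif_pos hj, dif_pos (by omega : i < m)]
    ext x
    simp only [Equiv.Perm.coe_mul, Function.comp, Equiv.swap_apply_def, apply_ite Fin.val,
      Fin.ext_iff, Fin.val_castSucc, Fin.val_succ]
    split_ifs <;> omega
  · rw [lsw, lsw, dif_pos hi, dif_pos (by omega : i < m)]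
    ext x
    simp only [Equiv.Perm.coe_mul, Function.comp, Equiv.swap_apply_def, apply_ite Fin.val,
      Fin.ext_iff, Fin.val_castSucc, Fin.val_succ]
    split_ifs <;> omega

/-- the same, with a trivial node in front. -/
def lsb (m : ℕ) : ℕ → Equiv.Perm (Fin (m + 1))
  | 0 => 1
  | i + 1 => lsw m i

theorem lsb_sq (m i : ℕ) : lsb m i * lsb m i = 1 := by
  cases i
  exacts [one_mul _, lsw_sq _ _]

theorem lsb_br (m : ℕ) : Br (m + 1) (lsb m) := by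
  refine ⟨fun i j h hj => ?_, fun i h hi => ?_, fun _ => by simp [lsb]⟩
  · obtain ⟨j, rfl⟩ : ∃ l, j = l + 1 := ⟨j - 1, by omega⟩
    cases i with
    | zero => simp [lsb]
    | succ i => exact (lsw_brd m).far i j (by omega) (by omega)
  · obtain ⟨i, rfl⟩ : ∃ l, i = l + 1 := ⟨i - 1, by omega⟩
    exact (lsw_brd m).br i (by omega)

variable {p : ℕ} [hp : Fact p.Prime] {C : ∀ (G : Type) [Group G], Prop} {X : Type} [Group X]
  [Finite X] {N T : Subgroup X} {n : ℕ → X} {k : ℕ}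

theorem cls_rel (hC : Cls p C) (hab : ∀ x ∈ T, ∀ y ∈ T, x * y = y * x) {K : Subgroup X}
    (hn : K ≤ normalizer (T : Set X)) (h : ¬ p ^ 2 ∣ T.relIndex K) : C K := by
  have : (T.subgroupOf K).Normal := normal_subgroupOf_of_le_normalizer hn
  exact hC.ext K (T.subgroupOf K)
    (cls_comm hC fun x hx y hy => Subtype.ext (hab x hx y hy)) (hC.small _ h)

theorem cls_w (hC : Cls p C) (hab : ∀ x ∈ T, ∀ y ∈ T, x * y = y * x)
    (hn : N ≤ normalizer (T : Set X)) {m c : ℕ} (Θ : N →* Equiv.Perm (Fin (m + 1)))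
    (h1 : ∀ t : N, (t : X) ∈ T → Θ t = 1) (h2 : ∀ i < m, ∃ x, Θ x = lsw m i)
    (h3 : T.relIndex N = c * (m + 1).factorial) (h4 : ¬ p ∣ c) : C N := by
  have hs : Θ.range = ⊤ := by
    rw [eq_top_iff]
    intro σ _
    have h : σ ∈ Submonoid.closure (Set.range fun i : Fin m => Equiv.swap i.castSucc i.succ) := by
      rw [Equiv.Perm.mclosure_swap_castSucc_succ]
      trivial
    refine (Submonoid.closure_le (S := Θ.range.toSubmonoid)).2 ?_ h
    rintro _ ⟨i, rfl⟩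
    obtain ⟨x, hx⟩ := h2 i i.2
    exact ⟨x, hx.trans (dif_pos i.2)⟩
  refine hC.hom Θ (cls_rel (T := T.subgroupOf N) hC
    (fun x hx y hy => Subtype.ext (hab x hx y hy)) ?_ fun h => h4 ?_)
    (cls_index hp.out hC _ (by rw [hs, index_top, Nat.dvd_one]; exact hp.out.ne_one))
  · have : (T.subgroupOf N).Normal := normal_subgroupOf_of_le_normalizer hn
    rw [normalizer_eq_top]
    exact le_top
  have e := relIndex_mul_index (H := T.subgroupOf N) (K := Θ.ker) fun t ht => h1 t ht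
  rw [index_ker, hs, card_top, Nat.card_perm, Nat.card_eq_fintype_card, Fintype.card_fin] at e
  rw [← Nat.eq_of_mul_eq_mul_right (m + 1).factorial_pos (e.trans h3)]
  exact (dvd_pow_self p two_ne_zero).trans h

theorem cls_two (h2 : p ≠ 2) (c : ℕ) : ¬ p ∣ 2 ^ c := fun h =>
  h2 ((Nat.prime_dvd_prime_iff_eq hp.out Nat.prime_two).1 (hp.out.dvd_of_dvd_pow h))

theorem cls_wa (hC : Cls p C) (hab : ∀ x ∈ T, ∀ y ∈ T, x * y = y * x) (h : WA k N T n) : C N := by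
  obtain ⟨Θ, h1, h2⟩ := h.lift (G := Equiv.Perm (Fin (k + 1))) (fun _ => 1) rfl
    (fun _ _ _ _ => (one_mul _).symm) (lsw k)
    (fun _ _ _ _ => by rw [mul_one, one_mul]) (fun _ _ => lsw_sq _ _) (lsw_brd k)
  exact cls_w (c := 1) hC hab h.nrm Θ h1 (fun i hi => ⟨⟨_, h.mem i hi⟩, h2 i hi _ rfl⟩)
    (by rw [one_mul, h.card]) fun e => hp.out.ne_one (Nat.dvd_one.1 e)

theorem cls_wb (h2 : p ≠ 2) (hC : Cls p C) (hab : ∀ x ∈ T, ∀ y ∈ T, x * y = y * x) (hk : 0 < k)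
    (h : WB k N T n) : C N := by
  obtain ⟨m, rfl⟩ : ∃ m, k = m + 1 := ⟨k - 1, by omega⟩
  obtain ⟨Θ, h1, h3⟩ := h.lift (G := Equiv.Perm (Fin (m + 1))) (fun _ => 1) rfl
    (fun _ _ _ _ => (one_mul _).symm) (lsb m)
    (fun _ _ _ _ => by rw [mul_one, one_mul]) (fun _ _ => lsb_sq _ _) (lsb_br m)
  exact cls_w hC hab h.nrm Θ h1
    (fun i hi => ⟨⟨_, h.mem (i + 1) (by omega)⟩, h3 (i + 1) (by omega) _ rfl⟩) h.card (cls_two h2 _)

theorem cls_wd (h2 : p ≠ 2) (hC : Cls p C) (hab : ∀ x ∈ T, ∀ y ∈ T, x * y = y * x)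
    {g : MulAut X} (h : WD k N T n g) : C N := by
  obtain ⟨m, rfl⟩ : ∃ m, k = m + 1 := ⟨k - 1, by have := h.k2; omega⟩
  obtain ⟨Θ, h1, h3, -⟩ := h.lift (G := Equiv.Perm (Fin (m + 1))) (fun _ => 1) rfl
    (fun _ _ _ _ => (one_mul _).symm) (lsb m)
    (fun _ _ => by rw [mul_one, one_mul]) (lsb_sq _ _)
    (fun _ _ _ _ _ => by rw [mul_one, one_mul]) (fun _ _ _ => lsb_sq _ _) (lsb_br m)
  exact cls_w hC hab h.nrm Θ h1 (fun i hi => ⟨⟨_, h.mem (i + 1) (by omega)⟩,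
    h3 (i + 1) (by omega) (by omega) _ rfl⟩) h.card (cls_two h2 _)

variable {F κ : Type} [Field F] [CharZero F] [Field κ] {O R' : Subring F} {r' : F → κ}
  {GG : Subgroup (RingAut F)} {r : ℕ} [Fact r.Prime] {U : Sylow r X}

theorem leaf_bv (hP : PM p O R' r' GG) (hX : commutator X = ⊤) (h : BV p U N)
    (hc : ∃ Θ, Z.Cor (Z.Ga GG h.D) N (Z.av F U) Θ) (hN : C N) : Leaf p GG C X := by
  have := hP.algF
  obtain ⟨R, hR⟩ := h.ex_syl
  obtain ⟨Θ, hΘ⟩ := hc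
  have hst := h.stab R.isPGroup' (h.le_syl hR) hR
  rw [← h.norm_eq] at hN
  refine ⟨hX, R, normalizer (h.D : Set X), fun γ k => (bo_map γ).1
    (main_map_norm γ h.D ((bo_map γ).2 (hst γ k))), fun g hg => ?_, hN, fun A _ _ u hu hm => ?_⟩
  · exact mem_normalizer_iff.2 fun x => (Z.ml_stab R hst (MulAut.conj g)
      (fun y => (mem_normalizer_iff.1 hg y).symm) x).symm
  refine Z.ml_emb hX hu hm _ ((g1_lk h.pg (Θ := Θ) (by rw [h.norm_eq]; exact hΘ)).mono ?_)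
  rintro γ ⟨⟨⟨σ, hσ, h1⟩, h2⟩, h3⟩
  obtain ⟨δ, hδ⟩ := ga_perf hX h1 h2
  exact ⟨⟨σ, hσ, h1⟩, δ, hδ, Z.ml_stab R hst δ ((ga_stb h1 hδ _).1 h3)⟩

theorem leaf_ta (h2 : p ≠ 2) (hC : Cls p C) (hP : PM p O R' r' GG) (hX : commutator X = ⊤)
    (h : TA p k U N n) : Leaf p GG C X :=
  leaf_bv hP hX h.v (h.cor h2 hP) (cls_wa hC h.v.ab h.w)

theorem leaf_tb (h2 : p ≠ 2) (hC : Cls p C) (hP : PM p O R' r' GG) (hX : commutator X = ⊤)
    (h : TB p k U N n) : Leaf p GG C X :=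
  leaf_bv hP hX h.v (h.cor h2 hP) (cls_wb h2 hC h.v.ab (by have := h.k3; omega) h.w)

theorem leaf_td (h2 : p ≠ 2) (hC : Cls p C) (hq : Clo p C) (hP : PM p O R' r' GG) {g : MulAut X}
    (h : TD p k U N n g) {Y : Type} [Group Y] [Finite Y] (hY : commutator Y = ⊤) {π : X →* Y}
    (hπ : Surjective π) (hk : π.ker ≤ center X)
    (hk' : ∀ x ∈ π.ker, (∃ c, x ^ p ^ c = 1) → x = 1) : Leaf p GG C Y :=
  leaf_bv hP hY (h.v.qmap hπ hk hk') (h.cor2 h2 hP hπ hk _)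
    (hq.quot _ _ (cls_wd h2 hC h.v.ab h.w) _ (π.subgroupMap_surjective N))

end Pool.Agent.Lib.MP_1ae3da_al.WG
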