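import Pool.Agent.Lib.MP_1ae3da_al.L.Ex
import Pool.Agent.Lib.MP_1ae3da_al.B.Tw
import Pool.Agent.Lib.MP_1ae3da_al.B.Cls

/-! All spin groups with `p ∣ q - 1` are leaves. -/

namespace Pool.Agent.Lib.MP_1ae3da_al

namespace JM
open SLI CT CT.Z

variable {p r k : ℕ} {X Y : Type} [Group X] [Group Y] [Finite X] {U : Sylow r X} {N : Subgroup X}
  {n : ℕ → X} [hp : Fact p.Prime] [hr : Fact r.Prime]

theorem TS.cor1 {F κ : Type} [Field F] [CharZero F] [Field κ] {O R : Subring F} {ρ : F → κ}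
    {GG : Subgroup (RingAut F)} (h : BV p U N) (t : TS k U N n) (h2 : p ≠ 2) (hP : PM p O R ρ GG)
    (hw : ¬ p ^ 2 ∣ (Tor U N).relIndex N) : ∃ Θ, Cor (Ga GG h.D) N (av F U) Θ := by
  obtain ⟨l, -, l2, l3, -⟩ := t.len h
  refine h.cor_nb hP h2 (h.nb hP h2 one_pos (by simpa only [pow_one] using h.orb)
    {s | ∃ i, i < k ∧ (s : X) = n i} ?_ ?_ ?_) hw
    fun σ hσ γ hγ δ hδ hU hN x => h.bar_nat hP hσ hγ hδ hU hN x
  · rintro s ⟨i, hi, e⟩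
    rw [Subgroup.coe_mul, e]
    exact t.sq i hi
  · intro Q h0 h1 x
    exact t.red h (fun m => ∀ hm : m ∈ N, Q ⟨m, hm⟩) (fun s hs _ => h0 _ hs)
      (fun i hi m hm _ ih _ => h1 ⟨n i, t.mem i hi⟩ ⟨i, hi, rfl⟩ ⟨m, hm⟩ (ih hm)) x x.2 x.2
  · rintro s ⟨i, hi, e⟩ x
    rw [Subgroup.coe_mul, Subgroup.coe_inv, e]
    have hn := t.mem i hi
    have a1 := l3 i hi x x.2
    have a2 := (l3 i hi _ (mul_mem (inv_mem hn) x.2)).2
    have e1 : (n i)⁻¹ * (x : X) = (n i * n i)⁻¹ * (n i * x) := by group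
    have e2 : l ((n i)⁻¹ * (x : X)) = l (n i * x) := by
      rw [e1, l2 _ (mul_mem hn x.2) _ (inv_mem (t.sq i hi))]
    rw [mul_inv_cancel_left, e2] at a2
    rw [a1.2, a2]
    have := a1.1
    omega

theorem TS.qm (h : BV p U N) (t : TS k U N n) {ρ : X →* Y} (hρ : Function.Surjective ρ)
    (hk : ρ.ker ≤ Subgroup.center X) : TS k (U.mapSurjective hρ) (N.map ρ) (fun i => ρ (n i)) ∧
      (Tor (U.mapSurjective hρ) (N.map ρ)).relIndex (N.map ρ) = (Tor U N).relIndex N := by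
  have hT := BN.tor_map (U := U) (N := N) hρ hk
  have hkT : ρ.ker ≤ Tor U N := hk.trans h.q_cen
  have mT : ∀ t ∈ Tor U N, ρ t ∈ Tor (U.mapSurjective hρ) (N.map ρ) := fun t ht =>
    hT ▸ ⟨t, ht, rfl⟩
  refine ⟨⟨fun i hi => ⟨_, t.mem i hi, rfl⟩, fun i hi => map_mul ρ _ _ ▸ mT _ (t.sq i hi),
    fun i hi c => t.nt i hi ?_, ?_, ?_⟩, ?_⟩
  · rw [hT] at c
    exact (Subgroup.comap_map_eq_self hkT).le c
  · refine (Subgroup.map_mono t.gen).trans ?_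
    rw [MonoidHom.map_closure, Set.image_union, Set.image_image, hT]
    rfl
  · rintro i hi _ ⟨m, hm, rfl⟩ _ ⟨u, hu, rfl⟩
    obtain ⟨a, ha, t, ht, b, hb, e⟩ := t.tits i hi m hm u hu
    exact ⟨ρ a, ⟨a, ha, rfl⟩, ρ t, mT t ht, ρ b, ⟨b, hb, rfl⟩,
      e.imp (fun e => by simpa only [map_mul] using congrArg ρ e)
        fun e => by simpa only [map_mul] using congrArg ρ e⟩
  · rw [hT, Subgroup.relIndex_map_map, sup_of_le_left hkT, sup_of_le_left (hkT.trans inf_le_left)]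

end JM

namespace JP
open SLI Matrix JM

/-- a Tits system with a small Weyl group. -/
def St4 (p : ℕ) (X : Type) [Group X] : Prop :=
  (∀ x ∈ Subgroup.center X, (∃ c, x ^ p ^ c = 1) → x = 1) ∧
    ∃ (r : ℕ) (_ : Fact r.Prime) (U : Sylow r X) (N : Subgroup X) (k : ℕ) (n : ℕ → X),
      BV p U N ∧ TS k U N n ∧ ¬ p ^ 2 ∣ (Tor U N).relIndex N

theorem Spn.str2 {F : Type} [Field F] {m k : ℕ} {φ : F →+* F} {X : Type} [Group X]
    {π : X →* SLm m F} {E : (Fin m → F) → (Fin m → F) → X} (h : Spn φ k π E) {r : ℕ}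
    [hr : Fact r.Prime] [CharP F r] [Finite F] [Finite X] {p : ℕ} (hp : p.Prime) (h2 : p ≠ 2)
    (hpr : p ≠ r) {z : Fˣ} (hz : φ z = z) (z1 : z ≠ 1) (zp : z ^ p = 1) (hm : 7 ≤ m) :
    Str p X ∨ St4 p X := by
  by_cases c : m = 8 ∧ k = 4 ∧ p = 3
  swap
  · exact .inl (h.str (r := r) hp h2 hpr hz z1 zp hm fun a b d => (c ⟨a, b, d⟩).elim)
  obtain ⟨rfl, rfl, rfl⟩ := c
  have : Fact (Nat.Prime 3) := ⟨hp⟩
  obtain ⟨U, hU⟩ := h.ex_U (r := r)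
  have v := h.bv hU hp h2 hpr hz z1 zp
  obtain ⟨⟨-, -, a2, -, -, -, a6, a7, a8, a9, a10, -⟩, c, g, g1, g2, g3, g4, g5⟩ :=
    h.m6_d hU v rfl (by omega)
  have w : WD 4 (NN π) (Tor U (NN π)) h.nD g := ⟨inf_le_left, a2, by omega, g1, fun x =>
    and_congr (g3 x) (CT.Z.zTh_nrm (D := (U : Subgroup X)) g2 x), g3, g4, g5,
    fun i hi => (a6 i hi).1, fun i hi => (a6 i hi).2, h.nD_c0, a9, a10, a7, c⟩
  refine .inr ⟨fun x hx ⟨c, hc⟩ => ?_, r, hr, U, NN π, 4, _, v,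
    ⟨w.mem, w.sq, fun _ hi => w.nt hi, w.gen, a8⟩, by rw [c]; decide⟩
  have h4 := h.m6_cen hx ((h.tor_iff hU).1 (v.q_cen hx))
  exact orderOf_eq_one_iff.1 (Nat.eq_one_of_dvd_coprimes (Nat.Coprime.pow 2 c (by norm_num :
    Nat.Coprime 2 3)) (orderOf_dvd_of_pow_eq_one h4) (orderOf_dvd_of_pow_eq_one hc))

theorem spin_str2 (p : ℕ) (hp : p.Prime) (h2 : p ≠ 2) (K : Type) [Field K] [Finite K]
    (hq : p ∣ Nat.card K - 1) (m : ℕ) (hm : 7 ≤ m) (Q : QuadraticForm K (Fin m → K))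
    (nd : ∀ v, (∀ w, QuadraticMap.polar Q v w = 0) → v = 0) :
    Finite (spinGroup Q) ∧ (Str p (spinGroup Q) ∨ St4 p (spinGroup Q)) := by
  have : Fact p.Prime := ⟨hp⟩
  obtain ⟨k, F, _, _, _, P, P', φ, s, a1, a2, a3, a4, a5, a6, a7, a8, -⟩ := ex_spl0 nd
  have := Fintype.ofFinite K
  rw [Nat.card_eq_fintype_card] at hq
  obtain ⟨z, z1, zp, -⟩ := ex_z (F := K) h2 dvd_rfl hq
  have h : Spl Q P P' φ k s := ⟨a1, ⟨z, z.ne_zero, fun e => z1 (Units.ext e)⟩, a2, a3, a4,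
    by omega, a5, a6, a7, fun c => (a8 c).1⟩
  obtain ⟨π, hπ⟩ := h.ex_pi
  have := h.fin hπ
  obtain ⟨r, hr⟩ := CharP.exists K
  have : Fact r.Prime := ⟨CharP.char_is_prime K r⟩
  have : CharP F r := charP_of_injective_algebraMap (algebraMap K F).injective r
  let ι : Kˣ →* Fˣ := Units.map (algebraMap K F).toMonoidHom
  have hι : Function.Injective ι := Units.map_injective (algebraMap K F).injective
  exact ⟨inferInstance, (h.spn hπ).str2 (r := r) hp h2 (ne_char hp hq) (z := ι z)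
    ((a8 _).2 ⟨z, rfl⟩) (fun e => z1 (hι (e.trans (map_one ι).symm)))
    (by rw [← map_pow, zp, map_one]) hm⟩

end JP

namespace WG
open Function Subgroup Pool.Agent.Lib.McK CT JM JI

theorem clg_leaf {p : ℕ} [hp : Fact p.Prime] {F k : Type} [Field F] [Field k] {O R' : Subring F}
    {r' : F → k} {GG : Subgroup (RingAut F)} {C : ∀ (G : Type) [Group G], Prop} (h2 : p ≠ 2)
    (hC : Cls p C) (hq : Clo p C) (hP : PM p O R' r' GG) {X : Type} [Group X] [Finite X]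
    (hX : commutator X = ⊤) (h : JC.Clg p X) : Leaf p GG C X := by
  have := hP.charF
  obtain ⟨K, _, _, m, h | h | ⟨Q, hv, hm, nd, π, hπ, hk⟩ | h⟩ := h
  · exact cls_leaf h2 hC hq hP hX ⟨K, _, ‹_›, m, .inl h⟩
  · exact cls_leaf h2 hC hq hP hX ⟨K, _, ‹_›, m, .inr (.inl h)⟩
  · obtain ⟨_, h | ⟨hc, r, hr, U, N, k, n, v, t, c⟩⟩ := JP.spin_str2 p hp.out h2 K hv m hm Q nd
    · exact str_leaf h2 hC hq hP hX h hπ hk
    have w := v.qmap hπ hk fun x hx => hc x (hk hx)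
    obtain ⟨t', e⟩ := t.qm v hπ hk
    rw [← e] at c
    exact leaf_bv hP hX w (t'.cor1 w h2 hP c) (cls_rel hC w.ab w.nrm c)
  · exact cls_leaf h2 hC hq hP hX ⟨K, _, ‹_›, m, .inr (.inr (.inr h))⟩

theorem final10 (p : ℕ) (hp : p.Prime) (hp2 : p ≠ 2) (G : Type) [Group G] [Finite G]
    (C : Set (Subgroup G)) (hj : ∀ g : G, ∀ S ∈ C, S.map (MulAut.conj g).toMonoidHom ∈ C)
    (hc : ∀ S ∈ C, ∀ T ∈ C, S ≠ T → ∀ x ∈ S, ∀ y ∈ T, x * y = y * x)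
    (hl : ∀ S ∈ C, (commutator S = ⊤ ∧ (JC.Clg p S ∨ JV.Exc p S)) ∨ SplitW p S)
    (h : ChainW p (sSup C) ⊤) (P : Sylow p G) :
    ∃ f : NSV.IrrP p G ≃ NSV.IrrP p (normalizer (P : Set G)),
      ∀ γ : MulAut G, (∀ x, γ x ∈ P ↔ x ∈ P) → (∀ S ∈ C, S.map γ.toMonoidHom ∈ C) →
        ∀ σ ∈ NSV.H0 p, ∀ θ θ' : NSV.IrrP p G, (∀ x, θ'.1 x = σ (θ.1 (γ x))) →
          ∀ m m' : normalizer (P : Set G), (m' : G) = γ m → (f θ').1 m = σ ((f θ).1 m') := by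
  have : Fact p.Prime := ⟨hp⟩
  obtain ⟨n, s, h0, hn, h⟩ := h.ser hp2
  exact final4 p (ser4_cl hp2).cls (ser4_clo hp2)
    (fun F k _ _ O R r GG j hs h1 A _ _ => ih4 hs hp2 j h1) G C hj hc
    (fun F k _ _ O R r GG hP S hS => (hl S hS).elim
      (fun h => h.2.elim (clg_leaf hp2 (ser4_cl hp2).cls (ser4_clo hp2) hP h.1)
        (exc_leaf hp2 (ser4_cl hp2).cls hP h.1)) (SplitW.leaf hp2 hP))
    n s h0 hn h P

end WG

end Pool.Agent.Lib.MP_1ae3da_al
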