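import Pool.Agent.Lib.MP_1ae3da_al.L.Lf
import Pool.Agent.Lib.MP_1ae3da_al.H.Exs
import Pool.Agent.Lib.MP_1ae3da_al.E.Te

/-! The exceptional groups with `p ∣ q - 1` are leaves. -/

namespace Pool.Agent.Lib.MP_1ae3da_al.WG

open Function Subgroup Pool.Agent.Lib.McK CT JM JI

theorem exc_leaf {p : ℕ} [hp : Fact p.Prime] {F k : Type} [Field F] [Field k] {O R' : Subring F}
    {r' : F → k} {GG : Subgroup (RingAut F)} {C : ∀ (G : Type) [Group G], Prop} (h2 : p ≠ 2)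
    (hC : Cls p C) (hP : PM p O R' r' GG) {X : Type} [Group X] [Finite X] (hX : commutator X = ⊤)
    (h : JV.Exc p X) : Leaf p GG C X := by
  have := hP.charF
  obtain ⟨r, hr, U, N, c, h | ⟨k, j, M, n, w, h⟩⟩ := h.str hp.out h2
  · exact leaf_bw h2 hC hP hr.out hX h fun _ => cls_rel hC h.ab h.nrm c
  · exact leaf_bv hP hX h.v (h.cor h2 hP) (cls_rel hC h.v.ab h.v.nrm c)

theorem final9 (p : ℕ) (hp : p.Prime) (hp2 : p ≠ 2) (G : Type) [Group G] [Finite G]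
    (C : Set (Subgroup G)) (hj : ∀ g : G, ∀ S ∈ C, S.map (MulAut.conj g).toMonoidHom ∈ C)
    (hc : ∀ S ∈ C, ∀ T ∈ C, S ≠ T → ∀ x ∈ S, ∀ y ∈ T, x * y = y * x)
    (hl : ∀ S ∈ C, (commutator S = ⊤ ∧ (JC.Cls p S ∨ JV.Exc p S)) ∨ SplitW p S)
    (h : ChainW p (sSup C) ⊤) (P : Sylow p G) :
    ∃ f : NSV.IrrP p G ≃ NSV.IrrP p (normalizer (P : Set G)),
      ∀ γ : MulAut G, (∀ x, γ x ∈ P ↔ x ∈ P) → (∀ S ∈ C, S.map γ.toMonoidHom ∈ C) →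
        ∀ σ ∈ NSV.H0 p, ∀ θ θ' : NSV.IrrP p G, (∀ x, θ'.1 x = σ (θ.1 (γ x))) →
          ∀ m m' : normalizer (P : Set G), (m' : G) = γ m → (f θ').1 m = σ ((f θ).1 m') := by
  have : Fact p.Prime := ⟨hp⟩
  obtain ⟨n, s, h0, hn, h⟩ := h.ser hp2
  exact final4 p (ser4_cl hp2).cls (ser4_clo hp2)
    (fun F k _ _ O R r GG j hs h1 A _ _ => ih4 hs hp2 j h1) G C hj hc
    (fun F k _ _ O R r GG hP S hS => (hl S hS).elim
      (fun h => h.2.elim (cls_leaf hp2 (ser4_cl hp2).cls (ser4_clo hp2) hP h.1)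
        (exc_leaf hp2 (ser4_cl hp2).cls hP h.1)) (SplitW.leaf hp2 hP))
    n s h0 hn h P

end Pool.Agent.Lib.MP_1ae3da_al.WG
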