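import Pool.Agent.Lib.MP_1ae3da_al.J.D4b

/-! Naturality in type `D` for two maps out of the group algebra. -/

namespace Pool.Agent.Lib.MP_1ae3da_al.JM

open SLI CT CT.Z

variable {p r k : ℕ} {X : Type} [Group X] [Finite X] [hp : Fact p.Prime] [hr : Fact r.Prime]
  {U : Sylow r X} {N : Subgroup X} {n : ℕ → X} {g : MulAut X} {F : Type} [Field F] [CharZero F]
  {γ : RingAut (MonoidAlgebra F X)} {d : YD F (Module.End F (MonoidAlgebra F X))}
  {A : Type} [Ring A] [Algebra F A] {ψ ψ' : MonoidAlgebra F X →+* A} {σ : RingAut F}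

/-- the two maps differ on the generator `m` by the conjugation with `c`. -/
def HG (U : Sylow r X) (ψ ψ' : MonoidAlgebra F X →+* A) (m c : X) : Prop :=
  ψ' (tau F U m) = ψ (jt F U c * tau F U m * jt F U c⁻¹) ∧
    ψ' (jt F U (m * m)) = ψ (jt F U (m * m))

/-- `a` and `b` move the torus in opposite ways and the maps differ by inverse elements. -/
def HP (U : Sylow r X) (N : Subgroup X) (ψ ψ' : MonoidAlgebra F X →+* A)
    (a b : MonoidAlgebra F X) : Prop :=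
  (∀ t ∈ Tor U N, ∃ t' ∈ Tor U N, a * jt F U t = jt F U t' * a ∧ jt F U t * b = b * jt F U t') ∧
    ∃ W ∈ Tor U N, ψ' a = ψ (jt F U W * a) ∧ ψ' b = ψ (b * jt F U W⁻¹)

omit [Algebra F A] in
theorem HP.one : HP U N ψ ψ' 1 1 :=
  ⟨fun t ht => ⟨t, ht, by simp, by simp⟩, 1, one_mem _, by simp [jt_one], by simp [jt_one]⟩

omit [Algebra F A] in
theorem HP.mul {B C B' C' : MonoidAlgebra F X} (h : HP U N ψ ψ' B C) (h' : HP U N ψ ψ' B' C') :
    HP U N ψ ψ' (B * B') (C' * C) := by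
  obtain ⟨s, W, hW, a, b⟩ := h
  obtain ⟨s', W', hW', a', b'⟩ := h'
  refine ⟨fun t ht => ?_, ?_⟩
  · obtain ⟨t', ht', c, e⟩ := s' t ht
    obtain ⟨t'', ht'', c', e'⟩ := s t' ht'
    exact ⟨t'', ht'', by rw [mul_assoc, c, ← mul_assoc, c', mul_assoc],
      by rw [← mul_assoc, e, mul_assoc, e', mul_assoc]⟩
  · obtain ⟨V, hV, c, e⟩ := s W' hW'
    have e' : jt F U W'⁻¹ * C = C * jt F U V⁻¹ := by
      rw [← mul_one (_ * C), ← d4b_inv hV, mul_assoc, ← mul_assoc C, ← e, mul_assoc, ← mul_assoc,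
        d4b_inv' hW', one_mul]
    refine ⟨W * V, mul_mem hW hV, ?_, ?_⟩
    · rw [map_mul, a, a', ← map_mul, jt_mul hW hV, mul_assoc, ← mul_assoc B, c]
      simp only [mul_assoc]
    · rw [map_mul, b, b', ← map_mul, mul_inv_rev, jt_mul (inv_mem hV) (inv_mem hW), mul_assoc,
        ← mul_assoc (jt F _ W'⁻¹), e']
      simp only [mul_assoc]

omit [Finite X] hr [CharZero F] in
theorem HP.smul {B C : MonoidAlgebra F X} (h : HP U N ψ ψ' B C)
    (l1 : ∀ (c : F) a, ψ (c • a) = c • ψ a) (l2 : ∀ (c : F) a, ψ' (c • a) = σ c • ψ' a) {q : F}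
    (hq : σ q = q) : HP U N ψ ψ' (q • B) (q • C) := by
  obtain ⟨s, W, hW, a, b⟩ := h
  refine ⟨fun t ht => ?_, W, hW, by rw [l2, hq, a, mul_smul_comm, l1],
    by rw [l2, hq, b, smul_mul_assoc, l1]⟩
  obtain ⟨t', ht', c, e⟩ := s t ht
  exact ⟨t', ht', by rw [smul_mul_assoc, c, mul_smul_comm],
    by rw [mul_smul_comm, e, smul_mul_assoc]⟩

omit [Algebra F A] in
theorem HG.gen (h : BV p U N) {m c : X} (hm : m ∈ N) (h2 : m * m ∈ Tor U N) (hc : c ∈ Tor U N)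
    (e : HG U ψ ψ' m c) : HP U N ψ ψ' (tau F U m) (tau F U m * jt F U (m * m)) ∧
      HP U N ψ ψ' (tau F U m * jt F U (m * m)) (tau F U m) := by
  obtain ⟨a, b⟩ := e
  have c1 := g4_T h hm (inv_mem hc)
  have hW := mul_mem hc c1
  have a1 : ψ' (tau F U m) = ψ (jt F U (c * (m * c⁻¹ * m⁻¹)) * tau F U m) := by
    rw [a, mul_assoc, tau_jt h hm (inv_mem hc), jt_mul hc c1, mul_assoc (jt F _ c)]
  have a2 : ψ' (tau F U m) = ψ (tau F U m * jt F U (c * (m * c⁻¹ * m⁻¹))⁻¹) := by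
    rw [a, d4b_sw h hm h2 hc, mul_assoc, ← jt_mul (g4_T h hm hc) (inv_mem hc)]
    congr 3
    group
  refine ⟨⟨fun t ht => ⟨_, g4_T h hm ht, tau_jt h hm ht, ?_⟩, _, hW, a1, ?_⟩,
    ⟨fun t ht => ⟨_, g4_T h hm ht, ?_, d4b_sw h hm h2 ht⟩, _, hW, ?_, a2⟩⟩
  · rw [← mul_assoc, d4b_sw h hm h2 ht, mul_assoc, d4b_cm h (g4_T h hm ht) h2,
      mul_assoc (tau F _ m)]
  · rw [map_mul, a2, b, ← map_mul, mul_assoc, d4b_cm h (inv_mem hW) h2, mul_assoc (tau F _ m)]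
  · rw [mul_assoc, d4b_cm h h2 ht, ← mul_assoc, tau_jt h hm ht, mul_assoc]
  · rw [map_mul, a1, b, ← map_mul, mul_assoc]

theorem HG.idem (h : BV p U N) (l1 : ∀ (c : F) a, ψ (c • a) = c • ψ a)
    (l2 : ∀ (c : F) a, ψ' (c • a) = σ c • ψ' a) {m c : X} (h2 : m * m ∈ Tor U N)
    (hc : c ∈ Tor U N) (e : HG U ψ ψ' m c) {q : F} (hq : σ q = q) (q1 : q - 1 ≠ 0)
    {ε : MonoidAlgebra F X} (hε : ε * jt F U c = jt F U c * ε) (un : IsUnit (tau F U m))
    (sq : tau F U m * tau F U m = q • jt F U (m * m) + (q - 1) • (ε * tau F U m)) :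
    ψ' ε = ψ ε := by
  obtain ⟨a, b⟩ := e
  have i := d4b_inv (F := F) hc
  have i' := d4b_inv' (F := F) hc
  have s1 : jt F U c * tau F U m * jt F U c⁻¹ * (jt F U c * tau F U m * jt F U c⁻¹) =
      q • jt F U (m * m) + (q - 1) • (ε * (jt F U c * tau F U m * jt F U c⁻¹)) := by
    have : jt F U c * tau F U m * jt F U c⁻¹ * (jt F U c * tau F U m * jt F U c⁻¹) =
        jt F U c * (tau F U m * tau F U m) * jt F U c⁻¹ := by
      simp only [mul_assoc]
      rw [← mul_assoc (jt F _ c⁻¹), i', one_mul]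
    rw [this, sq, mul_add, add_mul, mul_smul_comm, smul_mul_assoc, d4b_cm h hc h2, mul_assoc, i,
      mul_one, mul_smul_comm, smul_mul_assoc, ← mul_assoc, ← hε]
    simp only [mul_assoc]
  have s := congrArg ψ' sq
  have s2 := congrArg ψ s1
  rw [map_mul, map_add, l2, l2, map_sub, map_one, hq, map_mul, b] at s
  rw [map_mul, map_add, l1, l1, map_mul _ ε, ← a, s, add_right_inj] at s2
  exact (un.map ψ').mul_right_cancel (smul_right_injective _ q1 s2)

theorem isUnit_of_mul_isUnit_left' {M : Type} [Monoid M] {a x : M} (h : IsUnit (a * x))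
    (hx : x * x = 1) : IsUnit a := by
  have := h.mul (⟨⟨x, x, hx, hx⟩, rfl⟩ : IsUnit x)
  rwa [mul_assoc, hx, mul_one] at this

theorem TD.nat2 (h : TD p k U N n g) (hγ : SL F 1 γ) (hg : ∀ x, γ (gu F X x) = gu F X (g x))
    (hd : Md k U N n γ d) {s : ℕ → Module.End F (MonoidAlgebra F X)} (ho : d.Out s)
    (hσ : σ d.u = d.u) (l1 : ∀ (c : F) a, ψ (c • a) = c • ψ a)
    (l2 : ∀ (c : F) a, ψ' (c • a) = σ c • ψ' a)
    (h1 : ∀ i, i < k → ∃ c ∈ Tor U N, HG U ψ ψ' (n i) c)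
    {i : ℕ} (h0 : 0 < i) (hi : i < k) {c : X} (hc : c ∈ Tor U N) (e : HG U ψ ψ' (n i) c)
    {y : MonoidAlgebra F X} (hy : s i = Lm y) : ψ' y = ψ (jt F U c * y * jt F U c⁻¹) := by
  obtain ⟨a, rfl⟩ := Nat.exists_eq_succ_of_ne_zero h0.ne'
  have dk := hd.k
  obtain ⟨-, g2, g3⟩ := nat_gen hγ hg h.gU
  have hS : ∀ t ∈ Tor U N, Lm (jt F U t) ∈ d.S := fun t ht =>
    (hd.S _).2 ⟨_, Submodule.subset_span ⟨t, ht, rfl⟩, rfl⟩
  have cS : ∀ z, Lm z ∈ d.S → ∀ t ∈ Tor U N, z * jt F U t = jt F U t * z := fun z hz t ht =>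
    d4b_inj (by rw [map_mul, map_mul]; exact d.cm _ hz _ (hS t ht))
  have xL : ∀ z, d.x * Lm z = Lm (γ z) * d.x := fun z => LinearMap.ext fun w => by
    simp [hd.x]
  have xx : d.x * d.x = 1 := LinearMap.ext fun w => by
    simpa [hd.x] using d4b_gg hγ hg h.w.gg w
  have hQ : σ d.Q = d.Q := by rw [hd.Q, map_natCast]
  have gn : ∀ j, 0 < j → j < k → ∃ l, l < k ∧ g (n j) = n l := fun j j0 hj => by
    by_cases j1 : j = 1
    · exact ⟨0, by omega, j1 ▸ h.w.g1⟩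
    · exact ⟨j, hj, h.w.g2 j (by omega) hj⟩
  have hM : ∀ b, b < k → ∃ M, d.X b = Lm M * d.x ∧ d.ei b = 1 ∧ HP U N ψ ψ' M (γ M) := by
    intro b
    induction b with
    | zero => exact fun _ => ⟨1, by rw [map_one, one_mul]; rfl, hd.ηi, by
        rw [map_one]; exact HP.one⟩
    | succ b ih =>
      intro hb
      obtain ⟨M, m1, m2, m3⟩ := ih (by omega)
      obtain ⟨l, hl, gl⟩ := gn _ b.succ_pos hb
      obtain ⟨c1, t1, e1⟩ := h1 _ hb
      obtain ⟨c2, t2, e2⟩ := h1 _ hl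
      have gl' : g (n l) = n (b + 1) := by rw [← gl, h.w.gg]
      refine ⟨d.Q⁻¹ • (tau F U (n (b + 1)) * M * (tau F U (n l) * jt F U (n l * n l))), ?_, ?_, ?_⟩
      · change d.Q⁻¹ • (d.T b * d.X b * d.T b * d.h b) = _
        rw [m1, hd.T, hd.h, map_smul, smul_mul_assoc, mul_assoc, mul_assoc, mul_assoc, ← map_mul,
          xL, map_mul γ, g2, g3, map_mul g, gl]
        simp only [map_mul, mul_assoc]
      · change d.T b * d.ei b * d.Ti b = 1
        rw [m2, mul_one, d.T_Ti (dk ▸ hb)]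
      · have q : γ (tau F U (n (b + 1)) * M * (tau F U (n l) * jt F U (n l * n l))) =
            tau F U (n l) * (γ M * (tau F U (n (b + 1)) * jt F U (n (b + 1) * n (b + 1)))) := by
          rw [map_mul, map_mul, map_mul, g2, g3, g3, map_mul g, gl, gl', mul_assoc]
        rw [hγ, q]
        exact ((((e1.gen h.v (h.w.mem _ hb) (h.w.sq _ hb) t1).1).mul m3).mul
          (e2.gen h.v (h.w.mem _ hl) (h.w.sq _ hl) t2).2).smul l1 l2 (by rw [map_inv₀, hQ])
  have i1 := d4b_inv (F := F) hc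
  have i2 := d4b_inv' (F := F) hc
  let φ : MonoidAlgebra F X →+* MonoidAlgebra F X :=
    { toFun := fun z => jt F U c * z * jt F U c⁻¹
      map_one' := by rw [mul_one, i1]
      map_mul' := fun z w => by
        simp only [mul_assoc]
        rw [← mul_assoc (jt F _ c⁻¹), i2, one_mul]
      map_zero' := by simp
      map_add' := fun z w => by rw [mul_add, add_mul] }
  let B := (ψ'.eqLocus (ψ.comp φ)).map (Lm : MonoidAlgebra F X →ₐ[F] _).toRingHom
  have mB : ∀ z, ψ' z = ψ z → z * jt F U c = jt F U c * z → Lm z ∈ B := fun z k1 k2 =>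
    ⟨z, by change ψ' z = ψ (jt F U c * z * jt F U c⁻¹); rw [k1, ← k2, mul_assoc, i1, mul_one], rfl⟩
  have zB : ∀ b, b < k → d.Z b ∈ B := fun b hb => by
    obtain ⟨M, m1, m2, -, W, hW, w1, w2⟩ := hM b hb
    have z : d.Z b = Lm (M * γ M) := by
      rw [YD.Z, m1, m2, mul_one, mul_assoc, ← mul_assoc d.x, xL, mul_assoc, xx, mul_one, map_mul]
    have cz : ∀ t ∈ Tor U N, M * γ M * jt F U t = jt F U t * (M * γ M) := fun t ht =>
      d4b_inj (by rw [map_mul _ _ (jt F _ t), map_mul _ (jt F _ t), ← z]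
                  exact d.Z_S (dk ▸ hb) (hS t ht))
    rw [z]
    refine mB _ ?_ (cz c hc)
    rw [map_mul, w1, w2, ← map_mul, mul_assoc, ← mul_assoc M, ← mul_assoc, ← cz W hW, mul_assoc,
      d4b_inv hW, mul_one]
  have ha : a + 1 < d.k := dk ▸ hi
  have ha' : a < d.k := by omega
  obtain ⟨ε, -, hε⟩ := (hd.S _).1 (d.me a ha)
  obtain ⟨ε', -, hε'⟩ := (hd.S _).1 (YD.ep_mem ha' (d.me a ha))
  have cε := cS ε (hε ▸ d.me a ha)
  have cε' := cS ε' (hε' ▸ YD.ep_mem ha' (d.me a ha))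
  have un : IsUnit (tau F U (n (a + 1))) := Algebra.lmul_isUnit_iff.1 (hd.T a ▸ d.T_unit ha)
  have sq : tau F U (n (a + 1)) * tau F U (n (a + 1)) = d.Q • jt F U (n (a + 1) * n (a + 1)) +
      (d.Q - 1) • (ε * tau F U (n (a + 1))) := d4b_inj (by
    rw [map_add, map_smul, map_smul, map_mul, map_mul, ← hd.T, ← hd.h, ← hε]
    exact d.qT a ha)
  have f1 := e.idem h.v l1 l2 (h.w.sq _ hi) hc hQ d.Q1 (cε c hc) un sq
  obtain ⟨l, hl, gl⟩ := gn _ a.succ_pos hi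
  obtain ⟨c2, t2, e2⟩ := h1 _ hl
  have f2 : ψ' (γ ε) = ψ (γ ε) := by
    refine e2.idem h.v l1 l2 (h.w.sq _ hl) t2 hQ d.Q1 ?_ ?_ ?_
    · have := congrArg γ (cε (g c2) ((h.w.gT _).2 t2))
      rwa [map_mul, map_mul, g2, h.w.gg] at this
    · have := un.map γ
      rwa [g3, gl] at this
    · have := congrArg γ sq
      rwa [map_mul, map_add, hγ, hγ, map_mul, g2, g3, map_mul g, gl] at this
  have f3 : ψ' ε' = ψ ε' := by
    obtain ⟨M, m1, -, -, W, hW, w1, -⟩ := hM a (dk ▸ ha')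
    have uM : IsUnit M := Algebra.lmul_isUnit_iff.1 (isUnit_of_mul_isUnit_left' (m1 ▸ d.X_unit ha') xx)
    have k1 : M * γ ε = ε' * M := by
      have := YD.X_ep0 (ε := d.e a) ha'
      rw [hε', hε, m1, mul_assoc, xL, ← mul_assoc, ← mul_assoc, ← map_mul, ← map_mul] at this
      simpa [hd.x] using LinearMap.congr_fun this 1
    have k2 := congrArg ψ' k1
    rw [map_mul, map_mul, f2] at k2
    refine (uM.map ψ').mul_right_cancel (k2.symm.trans ?_)
    rw [w1, ← map_mul, ← map_mul, mul_assoc, k1, ← mul_assoc, ← mul_assoc, cε' W hW]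
  obtain ⟨z, hz, e3⟩ := ho.m1 B (RingHom.eqLocusField (σ : F →+* F) (RingHom.id F))
    (fun x hx => by
      rw [← (Lm : MonoidAlgebra F X →ₐ[F] _).commutes]
      refine mB _ ?_ (Algebra.commutes _ _)
      rw [Algebra.algebraMap_eq_smul_one, l2, l1, map_one, map_one]
      exact congrArg (· • (1 : A)) hx) hσ a ha ⟨tau F U (n (a + 1)), e.1, (hd.T a).symm⟩
    (hε ▸ mB _ f1 (cε c hc)) (hε' ▸ mB _ f3 (cε' c hc)) (zB a (dk ▸ ha')) (zB _ hi)
  obtain rfl : z = y := d4b_inj (e3.trans hy)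
  exact hz

end Pool.Agent.Lib.MP_1ae3da_al.JM
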