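import Pool.Agent.Lib.MP_1ae3da_al.L.Hn
import Pool.Agent.Lib.MP_1ae3da_al.I.Qd

/-! Pushing the Hecke generators along a central quotient. -/

namespace Pool.Agent.Lib.MP_1ae3da_al.JM

open SLI CT CT.Z

variable {p r k : ℕ} {X Y : Type} [Group X] [Group Y] {F : Type} [Field F]

/-- a central quotient and the map of group algebras. -/
structure Pu (U : Sylow r X) (N : Subgroup X) (V : Sylow r Y) (M : Subgroup Y) (π : X →* Y)
    (ψ : MonoidAlgebra F X →+* MonoidAlgebra F Y) : Prop where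
  sj : Function.Surjective π
  ker : π.ker ≤ Subgroup.center X
  kT : π.ker ≤ Tor U N
  U : (U : Subgroup X).map π = V
  N : N.map π = M
  l : ∀ (c : F) a, ψ (c • a) = c • ψ a
  gu : ∀ x, ψ (gu F X x) = gu F Y (π x)

/-- the rank one axiom for `m`. -/
def On1 (U : Sylow r X) (N : Subgroup X) (m : X) : Prop :=
  ∀ u ∈ U, m * u * m⁻¹ ∈ U ∨
    ∃ s ∈ Tor U N, ∃ v ∈ U, ∃ w ∈ U, m * u * m⁻¹ = v * (s * m * s⁻¹) * w

theorem db_rig (hk : 5 ≤ k) (f : ℕ → ℕ) (inj : ∀ i j, i < k → j < k → i ≠ j → f i ≠ f j)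
    (adj : ∀ i j, i < k → j < k → dbA i j → dbA (f i) (f j)) :
    ((f 0 = 0 ∧ f 1 = 1) ∨ (f 0 = 1 ∧ f 1 = 0)) ∧ ∀ i, 2 ≤ i → i < k → f i = i := by
  have a02 := adj 0 2 (by omega) (by omega) (by unfold dbA; omega)
  have a12 := adj 1 2 (by omega) (by omega) (by unfold dbA; omega)
  have a32 := adj 3 2 (by omega) (by omega) (by unfold dbA; omega)
  have a34 := adj 3 4 (by omega) (by omega) (by unfold dbA; omega)
  have n01 := inj 0 1 (by omega) (by omega) (by omega)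
  have n03 := inj 0 3 (by omega) (by omega) (by omega)
  have n13 := inj 1 3 (by omega) (by omega) (by omega)
  have n24 := inj 2 4 (by omega) (by omega) (by omega)
  unfold dbA at a02 a12 a32 a34
  have e2 : f 2 = 2 := by omega
  have e3 : f 3 = 3 := by omega
  have up : ∀ i, 2 ≤ i → i + 1 < k → f i = i ∧ f (i + 1) = i + 1 := by
    intro i hi
    induction i, hi using Nat.le_induction with
    | base => exact fun _ => ⟨e2, e3⟩
    | succ i hi ih =>
      intro hl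
      obtain ⟨b1, b2⟩ := ih (by omega)
      have c := adj (i + 1) (i + 1 + 1) (by omega) hl (by unfold dbA; omega)
      have d := inj i (i + 1 + 1) (by omega) hl (by omega)
      unfold dbA at c
      exact ⟨b2, by omega⟩
  refine ⟨by omega, fun i h2 hi => ?_⟩
  rcases Nat.eq_or_lt_of_le h2 with rfl | l
  · exact e2
  · obtain ⟨i, rfl⟩ : ∃ i', i = i' + 1 := ⟨i - 1, by omega⟩
    exact (up i (by omega) hi).2

variable {U : Sylow r X} {N : Subgroup X} {V : Sylow r Y} {M : Subgroup Y} {π π' : X →* Y}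
  {ψ ψ' : MonoidAlgebra F X →+* MonoidAlgebra F Y} {n : ℕ → X} {g : MulAut X}

theorem On1.map {m : X} (h : On1 U N m) (δ : MulAut X) (hU : ∀ x, δ x ∈ U ↔ x ∈ U)
    (hN : ∀ x, δ x ∈ N ↔ x ∈ N) : On1 U N (δ m) := fun u hu => by
  obtain ⟨u, rfl⟩ := δ.surjective u
  refine (h u ((hU u).1 hu)).imp (fun e => ?_) ?_
  · simpa only [map_mul, map_inv] using (hU _).2 e
  · rintro ⟨s, hs, v, hv, w, hw, e⟩
    exact ⟨δ s, (map_T δ hU hN s).2 hs, δ v, (hU _).2 hv, δ w, (hU _).2 hw,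
      by simpa only [map_mul, map_inv] using congrArg δ e⟩

variable [Finite X] [hp : Fact p.Prime] [hr : Fact r.Prime]

theorem conj_two (h : BV p U N) {a b : X} (hb : b ∈ N) (h1 : b ∉ Tor U N) (oa : On1 U N a)
    (ob : On1 U N b) (h3 : a * b⁻¹ ∈ Tor U N) : ∃ c ∈ Tor U N, a = c * b * c⁻¹ := by
  obtain ⟨t, rfl⟩ : ∃ t, a = t * b := ⟨a * b⁻¹, by group⟩
  rw [mul_inv_cancel_right] at h3
  obtain ⟨u, hu, hu'⟩ := ex_out hb h1
  obtain ⟨s, hs, d⟩ := (ob u hu).resolve_left hu'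
  have e0 : t * b * u * (t * b)⁻¹ = t * (b * u * b⁻¹) * t⁻¹ := by group
  obtain ⟨s', hs', d'⟩ := (oa u hu).resolve_left fun e => hu' (by
    have := T_cj' h3 e
    rwa [e0, show t⁻¹ * (t * (b * u * b⁻¹) * t⁻¹) * t = b * u * b⁻¹ by group] at this)
  have d1 := (DC.tl d h3).tr (inv_mem h3)
  rw [e0] at d'
  have e1 := h.uq (mul_mem (mul_mem hs'.1 (mul_mem h3.1 hb)) (inv_mem hs'.1))
    (mul_mem (mul_mem h3.1 (mul_mem (mul_mem hs.1 hb) (inv_mem hs.1))) (inv_mem h3.1)) d' d1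
  refine ⟨s'⁻¹ * t * s, mul_mem (mul_mem (inv_mem hs') h3) hs, ?_⟩
  have e2 := h.ab _ hs' _ h3
  have e3 := h.ab _ (mul_mem hs' h3) _ (inv_mem hs)
  calc t * b = s'⁻¹ * (s' * (t * b) * s'⁻¹) * s' := by group
    _ = s'⁻¹ * t * s * b * (s⁻¹ * t⁻¹ * s') := by rw [e1]; group
    _ = _ := by group

omit hp in
theorem pu_ex (hπ : Function.Surjective π) (hk : π.ker ≤ Subgroup.center X)
    (hT : π.ker ≤ Tor U N) : ∃ ψ : MonoidAlgebra F X →+* MonoidAlgebra F Y,
      Pu U N (U.mapSurjective hπ) (N.map π) π ψ :=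
  ⟨(MonoidAlgebra.mapDomainAlgHom F F π).toRingHom, hπ, hk, hT, rfl, rfl,
    fun c a => map_smul (MonoidAlgebra.mapDomainAlgHom F F π) c a, fun x => by simp [CT.gu]⟩

namespace Pu
variable (h : Pu U N V M π ψ)
include h

omit hp in
theorem T : (Tor U N).map π = Tor V M := by
  have e : U.mapSurjective h.sj = V := Sylow.ext h.U
  have := BN.tor_map (U := U) (N := N) h.sj h.ker
  rw [e, h.N] at this
  exact this.symm

omit hp in
theorem memT {x : X} : π x ∈ Tor V M ↔ x ∈ Tor U N := by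
  rw [← h.T, ← Subgroup.mem_comap, Subgroup.comap_map_eq, sup_of_le_left h.kT]

omit [Finite X] hp hr in
theorem memN {x : X} (hx : x ∈ N) : π x ∈ M := h.N ▸ ⟨x, hx, rfl⟩

omit [Finite X] hp hr in
theorem exN {y : Y} (hy : y ∈ M) : ∃ x ∈ N, π x = y := by rwa [← h.N] at hy

omit [Finite X] hp hr in
theorem memU {x : X} (hx : x ∈ U) : π x ∈ V := h.U.le ⟨x, hx, rfl⟩

omit [Finite X] hp hr in
theorem comp (δ : MulAut X) (hU : ∀ x, δ x ∈ U ↔ x ∈ U) (hN : ∀ x, δ x ∈ N ↔ x ∈ N)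
    {γ : RingAut (MonoidAlgebra F X)} (hγ : SL F 1 γ) (hδ : ∀ x, γ (CT.gu F X x) = CT.gu F X (δ x)) :
    Pu U N V M (π.comp δ.toMonoidHom) (ψ.comp γ) := by
  have e : ∀ S : Subgroup X, (∀ x, δ x ∈ S ↔ x ∈ S) →
      S.map (π.comp δ.toMonoidHom) = S.map π := fun S hS => by
    rw [← Subgroup.map_map]
    congr 1
    conv_lhs => rw [← (Subgroup.ext hS : S.comap δ.toMonoidHom = S)]
    exact Subgroup.map_comap_eq_self_of_surjective δ.surjective _
  refine ⟨h.sj.comp δ.surjective, fun x hx => ?_, fun x hx => (map_T δ hU hN x).1 (h.kT hx),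
    (e _ hU).trans h.U, (e _ hN).trans h.N, fun c a => (congrArg ψ (hγ c a)).trans (h.l _ _),
    fun x => (congrArg ψ (hδ x)).trans (h.gu _)⟩
  simpa using qd_cen (g := δ⁻¹) (h.ker hx)

omit hp in
theorem on1 {m : X} (o : On1 U N m) : On1 V M (π m) := fun u hu => by
  obtain ⟨u, hu', rfl⟩ := h.U.ge hu
  refine (o u hu').imp (fun e => by simpa only [map_mul, map_inv] using h.memU e) ?_
  rintro ⟨s, hs, v, hv, w, hw, e⟩
  exact ⟨π s, h.memT.2 hs, π v, h.memU hv, π w, h.memU hw,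
    by simpa only [map_mul, map_inv] using congrArg π e⟩

omit hp in
theorem ts (t : TS k U N n) : TS k V M fun i => π (n i) := by
  refine ⟨fun i hi => h.memN (t.mem i hi), fun i hi => map_mul π _ _ ▸ h.memT.2 (t.sq i hi),
    fun i hi e => t.nt i hi (h.memT.1 e), ?_, fun i hi m hm u hu => ?_⟩
  · refine h.N.ge.trans ((Subgroup.map_mono t.gen).trans ?_)
    rw [MonoidHom.map_closure, Set.image_union, Set.image_image, ← h.T]
    rfl
  · obtain ⟨m, hm', rfl⟩ := h.exN hm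
    obtain ⟨u, hu', rfl⟩ := h.U.ge hu
    obtain ⟨a, ha, s, hs, b, hb, e⟩ := t.tits i hi m hm' u hu'
    exact ⟨π a, h.memU ha, π s, h.memT.2 hs, π b, h.memU hb,
      e.imp (fun e => by simpa only [map_mul] using congrArg π e)
        fun e => by simpa only [map_mul] using congrArg π e⟩

omit [Finite X] hp hr in
theorem qn (m : X) : Qn (V : Subgroup Y) (π m) = Qn (U : Subgroup X) m := by
  rw [Qn, Qn, ← h.U, ← Subgroup.relIndex_comap, ← Subgroup.inf_relIndex_right,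
    ← Subgroup.inf_relIndex_right (Subgroup.comap _ (U : Subgroup X))]
  congr 1
  ext u
  refine and_congr_left fun hu => ⟨?_, fun e => ⟨_, e, by simp⟩⟩
  rintro ⟨v, hv, e⟩
  have hz : m * u * m⁻¹ * v⁻¹ ∈ Subgroup.center X := h.ker (by
    rw [MonoidHom.mem_ker, map_mul, map_mul, map_mul, map_inv, map_inv, e]
    exact mul_inv_cancel _)
  have h2 : m * u * m⁻¹ ∈ Subgroup.normalizer (U : Set X) := by
    rw [← inv_mul_cancel_right (m * u * m⁻¹) v]
    exact mul_mem (Subgroup.center_le_normalizer _ hz) (Subgroup.le_normalizer hv)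
  have h3 : m * u * m⁻¹ ∈ ((m • U : Sylow r X) : Subgroup X) :=
    Subgroup.smul_mem_pointwise_smul u (MulAut.conj m) _ hu
  exact (((m • U : Sylow r X).isPGroup'.inf_normalizer_sylow U).le
    (Subgroup.mem_inf.mpr ⟨h3, h2⟩)).2

omit hp in
theorem rigid (w : WD k N (Tor U N) n g) (hk : 5 ≤ k) (δ : MulAut Y)
    (hT : ∀ x, δ x ∈ Tor V M ↔ x ∈ Tor V M)
    (h1 : ∀ i, i < k → ∃ j, j < k ∧ δ (π (n i)) * (π (n j))⁻¹ ∈ Tor V M) :
    (∀ i, i < k → δ (π (n i)) * (π (n i))⁻¹ ∈ Tor V M) ∨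
      ∀ i, i < k → δ (π (g (n i))) * (π (n i))⁻¹ ∈ Tor V M := by
  obtain ⟨Θ, t1, t2⟩ := w.db_ex
  choose! f p1 p2 using h1
  have ex : ∀ i, i < k → ∃ m ∈ N, π m = δ (π (n i)) := fun i hi => h.exN (by
    have := M.mul_mem (p2 i hi).1 (h.memN (w.mem _ (p1 i hi)))
    rwa [inv_mul_cancel_right] at this)
  choose! m m1 m2 using ex
  have val : ∀ i (hi : i < k), Θ ⟨m i, m1 i hi⟩ = dbR (f i) := fun i hi =>
    (db_eq' t1 (x := ⟨m i, m1 i hi⟩) (y := ⟨n (f i), w.mem _ (p1 i hi)⟩)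
      (h.memT.1 (by rw [map_mul, map_inv, m2 i hi]; exact p2 i hi))).trans (t2 _ (p1 i hi))
  have inj : ∀ i j, i < k → j < k → i ≠ j → f i ≠ f j := fun i j hi hj hne e => by
    have a := mul_mem (p2 i hi) (inv_mem (p2 j hj))
    rw [e, mul_inv_rev, inv_inv, mul_assoc, inv_mul_cancel_left, ← map_inv, ← map_mul, hT,
      ← map_inv, ← map_mul, h.memT] at a
    have b := db_eq' t1 (x := ⟨n i, w.mem i hi⟩) (y := ⟨n j, w.mem j hj⟩) a
    rw [t2 i hi, t2 j hj] at b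
    exact hne (dbR_inj b)
  obtain ⟨c, fx⟩ := db_rig hk f inj fun i j hi hj a => by
    refine w.db_adj (p1 i hi) (p1 j hj) (inj i j hi hj (by unfold dbA at a; omega)) ?_
    rw [← val i hi, ← val j hj]
    simp only [← map_mul]
    refine db_eq' t1 (h.kT ?_)
    have e := congrArg (fun x => δ (π x)) (w.db_br hi hj a)
    simp only [map_mul, ← m2 i hi, ← m2 j hj] at e
    simp only [MonoidHom.mem_ker, Subgroup.coe_mul, map_mul, map_inv, e, mul_inv_cancel]
  have q0 := p2 0 (by omega)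
  have q1 := p2 1 (by omega)
  have q2 : ∀ i, 2 ≤ i → i < k → δ (π (n i)) * (π (n i))⁻¹ ∈ Tor V M := fun i a b => by
    have := p2 i b
    rwa [fx i a b] at this
  rcases c with ⟨c0, c1⟩ | ⟨c0, c1⟩ <;> rw [c0] at q0 <;> rw [c1] at q1
  · refine Or.inl fun i hi => ?_
    rcases i with _ | _ | i
    exacts [q0, q1, q2 _ (by omega) hi]
  · refine Or.inr fun i hi => ?_
    rcases i with _ | _ | i
    · rwa [w.db_g0]
    · rwa [w.g1]
    · rw [w.g2 _ (by omega) hi]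
      exact q2 _ (by omega) hi

variable [CharZero F] [Finite Y]

omit hp hr in
theorem av : ψ (av F U) = Z.av F (V : Subgroup Y) := by
  have _ := Fintype.ofFinite (U : Subgroup X)
  have a : Z.av F (V : Subgroup Y) * ψ (Z.av F U) = ψ (Z.av F U) := zAv_mul fun y hy => by
    obtain ⟨u, hu, rfl⟩ := h.U.ge hy
    rw [← h.gu, ← map_mul, gu_av hu]
  rw [← a, zAv_def (E := (U : Subgroup X)), h.l, map_sum, mul_smul_comm, Finset.mul_sum,
    Finset.sum_congr rfl fun x _ => by rw [h.gu, av_gu (h.memU x.2)], Finset.sum_const,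
    Finset.card_univ, ← Nat.card_eq_fintype_card, ← Nat.cast_smul_eq_nsmul F,
    inv_smul_smul₀ zAv_card]

omit hp hr in
theorem jt (t : X) : ψ (jt F U t) = JM.jt F (V : Subgroup Y) (π t) := by
  rw [JM.jt, JM.jt, map_add, map_mul, map_sub, map_one, h.av, h.gu]

omit hp hr in
theorem an (t : X) : ψ (an F U t) = Z.an F (V : Subgroup Y) (π t) := by
  rw [Z.an, Z.an, map_mul, map_mul, h.av, h.gu]

omit hp hr in
theorem tau (t : X) : ψ (tau F U t) = JM.tau F (V : Subgroup Y) (π t) := by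
  rw [JM.tau, JM.tau, h.l, map_add, map_sub, map_one, h.av, h.an, h.qn]

theorem hg (h' : Pu U N V M π' ψ') (v : BV p V M) {σ : RingAut F}
    {γ : RingAut (MonoidAlgebra F Y)} (hγ : SL F σ γ) {δ : MulAut Y}
    (hδ : ∀ x, γ (CT.gu F Y x) = CT.gu F Y (δ x)) (hU : ∀ x, δ x ∈ V ↔ x ∈ V)
    (hN : ∀ x, δ x ∈ M ↔ x ∈ M) {m : X} (hm : m ∈ N) (h1 : m ∉ Tor U N) (h2 : m * m ∈ Tor U N)
    (o : On1 U N m) (e : δ (π' m) * (π m)⁻¹ ∈ Tor V M) : ∃ c ∈ Tor U N,
      δ (π' m) = π (c * m * c⁻¹) ∧ HG U ψ ((γ : _ →+* _).comp ψ') m c := by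
  obtain ⟨c, hc, e1⟩ := conj_two v (h.memN hm) (fun e => h1 (h.memT.1 e))
    ((h'.on1 o).map δ hU hN) (h.on1 o) e
  obtain ⟨-, n2, n3⟩ := nat_gen hγ hδ hU
  obtain ⟨c, rfl⟩ := h.sj c
  have c1 := g4_T v (h.memN hm) (inv_mem hc)
  refine ⟨c, h.memT.1 hc, by rw [e1, map_mul, map_mul, map_inv], ?_, ?_⟩
  · change γ (ψ' _) = _
    rw [h'.tau, n3, e1, map_mul, map_mul, h.jt, h.jt, h.tau, map_inv, mul_assoc (JM.jt F _ _),
      tau_jt v (h.memN hm) (inv_mem hc), ← tau_left c1, ← tau_left hc]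
    congr 1
    group
  · change γ (ψ' _) = _
    rw [h'.jt, n2, h.jt, map_mul, map_mul, e1]
    congr 1
    calc _ = π c * π (m * m) * (π c)⁻¹ := by rw [map_mul]; group
      _ = _ := by rw [v.ab _ hc _ (h.memT.2 h2), mul_inv_cancel_right]

end Pu

end Pool.Agent.Lib.MP_1ae3da_al.JM
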