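import Pool.Agent.Lib.MP_1ae3da_al.L.Qs
import Pool.Agent.Lib.MP_1ae3da_al.A.Sa

/-! All central quotients of `SL_m(q)` at the odd primes that divide `q - 1`. -/

namespace Pool.Agent.Lib.MP_1ae3da_al.JM

open SLI

section
variable {p r k : ℕ} {X Y : Type} [Group X] [Group Y] [Finite X] {U : Sylow r X} {N : Subgroup X}
  {n : ℕ → X} [hp : Fact p.Prime] [hr : Fact r.Prime]

theorem TA.qmap2 (h : TA p k U N n) (hs : QS p U N) {π : X →* Y} (hπ : Function.Surjective π)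
    (hk : π.ker ≤ Subgroup.center X) :
    TA p k (U.mapSurjective hπ) (N.map π) fun i => π (n i) := by
  have hT := BN.tor_map (U := U) (N := N) hπ hk
  have hkT : π.ker ≤ Tor U N := hk.trans h.v.q_cen
  have v := h.v.qmap2 hs hπ hk
  have mT : ∀ t ∈ Tor U N, π t ∈ Tor (U.mapSurjective hπ) (N.map π) := fun t ht =>
    hT ▸ ⟨t, ht, rfl⟩
  refine ⟨v, ⟨inf_le_left, v.nrm, fun i hi => ⟨_, h.w.mem i hi, rfl⟩,
    fun i hi => map_mul π _ _ ▸ mT _ (h.w.sq i hi), ⟨fun i j a b => ?_, fun i a => ?_⟩,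
    ?_, ?_⟩, h.k0, ?_, ?_⟩
  · simpa only [map_mul] using congrArg π (h.w.br.far i j a b)
  · simpa only [map_mul] using congrArg π (h.w.br.br i a)
  · refine (Subgroup.map_mono h.w.gen).trans ?_
    rw [MonoidHom.map_closure, Set.image_union, Set.image_image, hT]
    rfl
  · rw [hT, Subgroup.relIndex_map_map, sup_of_le_left hkT, sup_of_le_left (hkT.trans inf_le_left),
      h.w.card]
  · rintro i hi _ ⟨m, hm, rfl⟩ _ ⟨u, hu, rfl⟩
    obtain ⟨a, ha, t, ht, b, hb, e⟩ := h.tits i hi m hm u hu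
    exact ⟨π a, ⟨a, ha, rfl⟩, π t, mT t ht, π b, ⟨b, hb, rfl⟩,
      e.imp (fun e => by simpa only [map_mul] using congrArg π e)
        fun e => by simpa only [map_mul] using congrArg π e⟩
  · rintro i hi _ ⟨u, hu, rfl⟩
    refine (h.one i hi u hu).imp (fun e => ⟨_, e, by simp only [map_mul, map_inv]⟩) ?_
    rintro ⟨t, ht, a, ha, b, hb, e⟩
    exact ⟨π t, mT t ht, π a, ⟨a, ha, rfl⟩, π b, ⟨b, hb, rfl⟩,
      by simpa only [map_mul, map_inv] using congrArg π e⟩

end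

theorem sl_taq {p r k : ℕ} [hp : Fact p.Prime] [Fact r.Prime] {K : Type} [Field K] [Finite K]
    [CharP K r] (h2 : p ≠ 2) (hq : p ∣ Nat.card K - 1) (hk : 2 ≤ k)
    (h3 : k + 1 = 3 → p = 3 → 9 ∣ Nat.card K - 1) {X : Type} [Group X] {π : SLm (k + 1) K →* X}
    (hπ : Function.Surjective π) (hc : π.ker ≤ Subgroup.center _) (R : Sylow p X) :
    ∃ (U : Sylow r X) (N : Subgroup X) (n : ℕ → X), TA p k U N n ∧ (R : Subgroup X) ≤ N := by
  have := Fintype.ofFinite K
  have : Finite X := Finite.of_surjective π hπ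
  have hU := coe_uSyl (F := K) (Nat.succ_pos k) r
  have h := sl_ta hU hp.out h2 (ne_char (F := K) hp.out (by rwa [← Nat.card_eq_fintype_card])) hq
    hk h3
  obtain ⟨R₀, hR⟩ := h.v.ex_syl
  obtain ⟨g, hg⟩ := MulAction.exists_smul_eq X (R₀.mapSurjective hπ) R
  let ρ : SLm (k + 1) K →* X := (MulAut.conj g).toMonoidHom.comp π
  have hρ : Function.Surjective ρ := (MulAut.conj g).surjective.comp hπ
  have hkρ : ρ.ker = π.ker := by
    ext x
    exact map_eq_one_iff (MulAut.conj g) (MulAut.conj g).injective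
  refine ⟨_, _, _, h.qmap2 (sl_qs hU hp.out h2 hq h3) hρ (hkρ ▸ hc), ?_⟩
  have : (R : Subgroup X) = (R₀ : Subgroup _).map ρ := by
    rw [← hg, ← Subgroup.map_map]
    rfl
  exact this ▸ Subgroup.map_mono hR

/-- the inductive condition for all central quotients of `SL_m(q)`. -/
theorem sl_all2 (p : ℕ) (hp : p.Prime) (h2 : p ≠ 2) (K : Type) [Field K] [Finite K] (m : ℕ)
    (hm : 2 ≤ m) (hq : p ∣ Nat.card K - 1) (h3 : m = 3 → p = 3 → 9 ∣ Nat.card K - 1)
    (X : Type) [Group X] (π : Matrix.SpecialLinearGroup (Fin m) K →* X)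
    (hπ : Function.Surjective π) (hk : π.ker ≤ Subgroup.center _) (R : Sylow p X) :
    ∃ N : Subgroup X, NSV.IndN p X R N := by
  have : Fact p.Prime := ⟨hp⟩
  rcases hm.eq_or_lt with rfl | l
  · refine sl_ind p hp h2 K 2 le_rfl ?_ X π hπ hk R
    have h1 : 1 < Nat.card K := Finite.one_lt_card
    rw [Nat.factorial_two, padicValNat.eq_zero_of_not_dvd fun c =>
      h2 ((Nat.prime_dvd_prime_iff_eq hp Nat.prime_two).1 c)]
    exact one_le_padicValNat_of_dvd (by omega) hq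
  obtain ⟨k, rfl⟩ : ∃ k, m = k + 1 := ⟨m - 1, by omega⟩
  obtain ⟨r, hr⟩ := CharP.exists K
  have : Fact r.Prime := ⟨CharP.char_is_prime K r⟩
  have : Finite X := Finite.of_surjective π hπ
  obtain ⟨U, N, n, h, hR⟩ := sl_taq (r := r) h2 hq (by omega) h3 hπ hk R
  exact ⟨N, (h.ind h2).2 R hR⟩

end Pool.Agent.Lib.MP_1ae3da_al.JM
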