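import Pool.Agent.Lib.MP_1ae3da_al.L.Cw
import Pool.Agent.Lib.MP_1ae3da_al.L.Sl
import Pool.Agent.Lib.MP_1ae3da_al.L.Sp
import Pool.Agent.Lib.MP_1ae3da_al.P.Cls
import Pool.Agent.Lib.MP_1ae3da_al.I.Fin
import Pool.Agent.Lib.MP_1ae3da_al.C2.Bo8

/-! The classical groups with `p ∣ q - 1` are leaves. -/

namespace Pool.Agent.Lib.MP_1ae3da_al.WG

open Function Subgroup Pool.Agent.Lib.McK CT JM JI

section
variable {p : ℕ} [hp : Fact p.Prime] {F k : Type} [Field F] [Field k] {O R' : Subring F}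
  {r' : F → k} {GG : Subgroup (RingAut F)} {C : ∀ (G : Type) [Group G], Prop}

theorem str_leaf (h2 : p ≠ 2) (hC : Cls p C) (hq : Clo p C) (hP : PM p O R' r' GG) {Y X : Type}
    [Group Y] [Finite Y] [Group X] [Finite X] (hX : commutator X = ⊤) (h : JP.Str p Y)
    {π : Y →* X} (hπ : Surjective π) (hk : π.ker ≤ center Y) : Leaf p GG C X := by
  have := hP.charF
  obtain ⟨hc, r, hr, U, N, ⟨k, n, h⟩ | ⟨k, n, g, h⟩ | ⟨h, e⟩⟩ := h
  · exact leaf_tb h2 hC hP hX (h.qmap hπ hk fun x hx => hc x (hk hx))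
  · exact leaf_td h2 hC hq hP h hX hπ hk fun x hx => hc x (hk hx)
  refine leaf_bw h2 hC hP hr.out hX (h.map hπ hk) fun _ => hq.quot _ _
    (cls_rel hC h.ab h.nrm fun c => ?_) _ (π.subgroupMap_surjective N)
  rw [e] at c
  have c1 := ((Nat.Prime.coprime_iff_not_dvd hp.out).2 (cls_two h2 6)).pow_left 2
  have c2 := Nat.le_of_dvd (by norm_num) (c1.dvd_of_dvd_mul_left c)
  nlinarith [hp.out.two_le]

theorem cls_leaf (h2 : p ≠ 2) (hC : Cls p C) (hq : Clo p C) (hP : PM p O R' r' GG) {X : Type}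
    [Group X] [Finite X] (hX : commutator X = ⊤) (h : JC.Cls p X) : Leaf p GG C X := by
  have := hP.charF
  obtain ⟨K, _, _, m, h⟩ := h
  have := Fintype.ofFinite K
  obtain ⟨r, hr⟩ := CharP.exists K
  have : Fact r.Prime := ⟨CharP.char_is_prime K r⟩
  have h1 := Finite.one_lt_card (α := K)
  rcases h with ⟨hv, hm, h3, π, hπ, hk⟩ | ⟨hv, hm, π, hπ, hk⟩ | ⟨Q, hv, hm, nd, h8, π, hπ, hk⟩ |
    ⟨_, q, hc, hs, hv, hm, π, hπ, hk⟩
  · rcases Nat.lt_or_ge m 3 with c | c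
    · exact Classic.leaf h2 hC hP ⟨K, _, inferInstance, m,
        .inl ⟨hm, val_small h2 c (by omega) hv, π, hπ, hk⟩⟩
    obtain ⟨l, rfl⟩ : ∃ l, m = l + 1 := ⟨m - 1, by omega⟩
    obtain ⟨U, N, n, h, -⟩ := sl_taq (r := r) h2 hv (by omega) h3 hπ hk default
    exact leaf_ta h2 hC hP hX h
  · rcases Nat.lt_or_ge m 3 with c | c
    · exact Classic.leaf h2 hC hP ⟨K, _, inferInstance, m,
        .inr (.inl ⟨hm, val_small h2 c (by omega) hv, π, hπ, hk⟩)⟩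
    obtain ⟨U, N, n, h, -⟩ := sp_tb K c r p h2 (by rwa [← Nat.card_eq_fintype_card]) X π hπ hk
      default
    exact leaf_tb h2 hC hP hX h
  · obtain ⟨_, h⟩ := JP.spin_str p hp.out h2 K hv m hm Q nd h8
    exact str_leaf h2 hC hq hP hX h hπ hk
  · have hq' := hc
    rw [Nat.card_eq_fintype_card] at hq'
    rcases Nat.lt_or_ge (m / 2) 3 with c | c
    · have := SLI.two_le_q hq'
      exact Classic.leaf h2 hC hP ⟨K, _, inferInstance, m,
        .inr (.inr ⟨_, q, hc, hs, hm, val_small h2 c (by omega) hv, π, hπ, hk⟩)⟩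
    obtain ⟨U, N, n, h, -⟩ := su_tb K hq' hs c r p h2 hv X π hπ hk default
    exact leaf_tb h2 hC hP hX h

end

theorem final8 (p : ℕ) (hp : p.Prime) (hp2 : p ≠ 2) (G : Type) [Group G] [Finite G]
    (C : Set (Subgroup G)) (hj : ∀ g : G, ∀ S ∈ C, S.map (MulAut.conj g).toMonoidHom ∈ C)
    (hc : ∀ S ∈ C, ∀ T ∈ C, S ≠ T → ∀ x ∈ S, ∀ y ∈ T, x * y = y * x)
    (hl : ∀ S ∈ C, (commutator S = ⊤ ∧ JC.Cls p S) ∨ SplitW p S) (h : ChainW p (sSup C) ⊤)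
    (P : Sylow p G) :
    ∃ f : NSV.IrrP p G ≃ NSV.IrrP p (normalizer (P : Set G)),
      ∀ γ : MulAut G, (∀ x, γ x ∈ P ↔ x ∈ P) → (∀ S ∈ C, S.map γ.toMonoidHom ∈ C) →
        ∀ σ ∈ NSV.H0 p, ∀ θ θ' : NSV.IrrP p G, (∀ x, θ'.1 x = σ (θ.1 (γ x))) →
          ∀ m m' : normalizer (P : Set G), (m' : G) = γ m → (f θ').1 m = σ ((f θ).1 m') := by
  have : Fact p.Prime := ⟨hp⟩
  obtain ⟨n, s, h0, hn, h⟩ := h.ser hp2
  exact final4 p (ser4_cl hp2).cls (ser4_clo hp2)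
    (fun F k _ _ O R r GG j hs h1 A _ _ => ih4 hs hp2 j h1) G C hj hc
    (fun F k _ _ O R r GG hP S hS => (hl S hS).elim
      (fun h => cls_leaf hp2 (ser4_cl hp2).cls (ser4_clo hp2) hP h.1 h.2) (SplitW.leaf hp2 hP))
    n s h0 hn h P

end Pool.Agent.Lib.MP_1ae3da_al.WG
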