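import Pool.Agent.Lib.MP_1ae3da_al.A.Sl2
import Pool.Agent.Lib.MP_1ae3da_al.I.Qt

/-! No quadratic action modulo the centre; arbitrary central quotients. -/

namespace Pool.Agent.Lib.MP_1ae3da_al.JM

open SLI

/-- no element of `N` outside the torus acts quadratically modulo the centre. -/
def QS (p : ℕ) {r : ℕ} {X : Type} [Group X] (U : Sylow r X) (N : Subgroup X) : Prop :=
  ∀ m ∈ N, (∀ d ∈ Tor U N, (∃ c, d ^ p ^ c = 1) →
    d * m * d⁻¹ * m⁻¹ * m * (d * m * d⁻¹ * m⁻¹)⁻¹ * m⁻¹ ∈ Subgroup.center X) → m ∈ Tor U N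

variable {p r k : ℕ} {X Y : Type} [Group X] [Group Y] [Finite X] {U : Sylow r X} {N : Subgroup X}
  [hp : Fact p.Prime] [hr : Fact r.Prime]

theorem BV.qmap2 (h : BV p U N) (hs : QS p U N) {π : X →* Y} (hπ : Function.Surjective π)
    (hk : π.ker ≤ Subgroup.center X) : BV p (U.mapSurjective hπ) (N.map π) := by
  have hT := BN.tor_map (U := U) (N := N) hπ hk
  refine ⟨h.ne, ?_, ?_, fun y => ?_, ?_, ?_⟩
  · rw [hT]
    rintro _ ⟨x, hx, rfl⟩ _ ⟨y, hy, rfl⟩
    rw [← map_mul, ← map_mul, h.ab x hx y hy]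
  · rw [hT]
    exact (Subgroup.map_mono h.nrm).trans (Subgroup.le_normalizer_map π)
  · obtain ⟨x, rfl⟩ := hπ y
    obtain ⟨u, hu, n, hn, v, hv, e⟩ := h.bru x
    exact ⟨π u, ⟨u, hu, rfl⟩, π n, ⟨n, hn, rfl⟩, π v, ⟨v, hv, rfl⟩, by rw [e, map_mul, map_mul]⟩
  · rintro _ ⟨u, hu, rfl⟩ h1
    have h2 := h.orb u hu fun e => h1 (e ▸ map_one π)
    have h3 : (Subgroup.centralizer {π u}).comap π ⊓ Tor U N =
        Subgroup.centralizer {u} ⊓ Tor U N := by
      ext t
      refine and_congr_left fun ht => ?_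
      change π t ∈ Subgroup.centralizer {π u} ↔ t ∈ Subgroup.centralizer {u}
      rw [Subgroup.mem_centralizer_singleton_iff, Subgroup.mem_centralizer_singleton_iff]
      refine ⟨fun e => ?_, fun e => by rw [← map_mul, e, map_mul]⟩
      have h4 : t * u * t⁻¹ * u⁻¹ = 1 := h.q_one
        (mul_mem ((Subgroup.mem_normalizer_iff.mp ht.2 u).mp hu) (inv_mem hu)) fun s _ =>
          Subgroup.mem_center_iff.1 (hk (by
            rw [MonoidHom.mem_ker, map_mul, map_mul, map_mul, map_inv, map_inv, e]; group)) s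
      rwa [mul_inv_eq_one, mul_inv_eq_iff_eq_mul] at h4
    rw [hT, ← Subgroup.relIndex_comap, ← Subgroup.inf_relIndex_right (Subgroup.comap _ _), h3,
      Subgroup.inf_relIndex_right]
    exact h2
  · rintro _ ⟨m, hm, rfl⟩ hq
    rw [hT] at hq ⊢
    refine ⟨m, hs m hm fun d hd ⟨c, hc⟩ => hk ?_, rfl⟩
    have h1 := hq (π d) ⟨d, hd, rfl⟩ ⟨c, by rw [← map_pow, hc, map_one]⟩
    rw [MonoidHom.mem_ker, map_mul, map_mul, map_mul, map_inv, map_inv]
    simp only [map_mul, map_inv]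
    rw [h1.eq]
    group

end Pool.Agent.Lib.MP_1ae3da_al.JM

namespace Pool.Agent.Lib.MP_1ae3da_al.SLI

open Matrix Matrix.SpecialLinearGroup JM

variable {F : Type} [Field F] {m r : ℕ}

lemma qs_cm {g d : SLm m F} {σ : Equiv.Perm (Fin m)} (hg : IsMon g.1 σ) (hd : IsMon d.1 1) :
    IsMon (d * g * d⁻¹ * g⁻¹).1 1 ∧
      ∀ j, (d * g * d⁻¹ * g⁻¹).1 j j * d.1 (σ j) (σ j) = d.1 j j := by
  have hx : IsMon (d * g * d⁻¹ * g⁻¹).1 1 := by
    have := mon_mul (mon_mul (mon_mul hd hg) (mon_inv hd)) (mon_inv hg)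
    simpa using this
  refine ⟨hx, fun j => ?_⟩
  generalize ex : d * g * d⁻¹ * g⁻¹ = x at hx
  have e1 : x * g * d = d * g := by
    rw [← ex]
    group
  have a : (x.1 * g.1 * d.1) j (σ j) = (d.1 * g.1) j (σ j) :=
    congrArg (fun y : SLm m F => y.1 j (σ j)) e1
  have b := mon_r hd (x.1 * g.1) j (σ j)
  simp only [Equiv.Perm.coe_one, id] at b
  rw [b, mon_l hx, mon_l hd] at a
  simp only [Equiv.Perm.coe_one, id] at a
  exact mul_right_cancel₀ (mon_ne hg j) (by rw [← a]; ring)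

lemma sl_qs [Finite F] {U : Sylow r (SLm m F)} (hU : (U : Subgroup (SLm m F)) = US m F) {p : ℕ}
    (hp : p.Prime) (h2 : p ≠ 2) (hq : p ∣ Nat.card F - 1)
    (h3 : m = 3 → p = 3 → 9 ∣ Nat.card F - 1) : QS p U (MonS m F) := by
  rintro g ⟨σ, hg⟩ H
  have := Fact.mk hp
  have key : ∀ {a b : Fin m} (h : a ≠ b) (z : Fˣ) (c : ℕ), z ^ p ^ c = 1 → ∀ f : Fin m → Fˣ,
      (∀ k, f k = if k = a then z else if k = b then z⁻¹ else 1) → ∀ i j,
      f i * f (σ (σ i)) * (f (σ j) * f (σ j)) = f j * f (σ (σ j)) * (f (σ i) * f (σ i)) := by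
    intro a b h z c hz f hf i j
    have hd := el_mon h z
    obtain ⟨s, -, hs⟩ := mem_center_iff.mp (H _ ((sl_tor hU).mpr hd) ⟨c, by
      rw [el_pow, hz]
      apply Subtype.ext
      rw [el_val]
      simp⟩)
    obtain ⟨hx, k1⟩ := qs_cm hg hd
    have k2 := (qs_cm hg hx).2
    have k3 : ∀ l, (el h z).1 l l = f l := fun l => by rw [el_val, diagonal_apply_eq, hf]
    have k4 : ∀ l, (f l : F) * f (σ (σ l)) = s * (f (σ l) * f (σ l)) := fun l => by
      have e1 := k1 l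
      have e2 := k1 (σ l)
      have e3 := k2 l
      rw [← hs] at e3
      simp only [k3, scalar_apply, diagonal_apply_eq] at e1 e2 e3
      rw [← e1, ← e3]
      linear_combination s * f (σ l) * e2
    apply Units.ext
    simp only [Units.val_mul]
    rw [k4 i, k4 j]
    ring
  obtain ⟨z, hz⟩ := exists_prime_orderOf_dvd_card' (G := Fˣ) p (by rwa [Nat.card_units])
  have z1 : z ^ p ^ 1 = 1 := by rw [pow_one, ← hz, pow_orderOf_eq_one]
  have z2 : ∀ c : ℕ, z ^ 2 ^ c ≠ 1 := fun c b => h2 ((Nat.prime_dvd_prime_iff_eq hp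
    Nat.prime_two).mp (hp.dvd_of_dvd_pow (hz ▸ orderOf_dvd_of_pow_eq_one b)))
  have two : ∀ i, σ (σ i) = i → σ i = i := fun i c => by
    by_contra ne
    have a := key (Ne.symm ne) z 1 z1 _ (fun _ => rfl) i (σ i)
    simp only [c, if_true, if_neg ne] at a
    refine z2 3 ?_
    rw [show z ^ 2 ^ 3 = z * z * (z * z) * (z⁻¹ * z⁻¹ * (z⁻¹ * z⁻¹))⁻¹ by group, a,
      mul_inv_cancel]
  refine (sl_tor hU).mpr ?_
  suffices e : σ = 1 from e ▸ hg
  ext1 i
  by_contra ne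
  have ne : σ i ≠ i := ne
  have c : σ (σ i) ≠ i := fun e => ne (two i e)
  have n2 : σ (σ i) ≠ σ i := σ.injective.ne ne
  by_cases c3 : σ (σ (σ i)) = i
  swap
  · have a := key (Ne.symm c3) z 1 z1 _ (fun _ => rfl) i (σ i)
    have n3 : σ (σ i) ≠ σ (σ (σ i)) := σ.injective.ne n2.symm
    have n4 : σ i ≠ σ (σ (σ i)) := σ.injective.ne c.symm
    simp only [if_true, if_neg ne, if_neg c, if_neg c3, if_neg n3, if_neg n4, mul_one,
      one_mul] at a
    refine z2 1 ?_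
    rw [pow_one, pow_two]
    nth_rewrite 1 [a]
    group
  by_cases c4 : ∃ e, e ≠ i ∧ e ≠ σ i ∧ e ≠ σ (σ i)
  · obtain ⟨e, e1, e2, e3⟩ := c4
    have a := key e1.symm z 1 z1 _ (fun _ => rfl) i e
    have e4 : σ e ≠ i := fun k => e3 (σ.injective (k.trans c3.symm))
    have e5 : σ (σ e) ≠ i := fun k => e2 (σ.injective (σ.injective (k.trans c3.symm)))
    by_cases e6 : σ e = e
    · simp only [e6, if_true, if_neg ne, if_neg c, if_neg e1, if_neg e2.symm, if_neg e3.symm,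
        mul_one] at a
      exact z2 0 (by rw [pow_zero, pow_one]; exact mul_right_cancel (a.trans (one_mul _).symm))
    have e7 : σ (σ e) ≠ e := fun k => e6 (two e k)
    simp only [if_true, if_neg ne, if_neg c, if_neg e1, if_neg e2.symm, if_neg e3.symm, if_neg e4,
      if_neg e5, if_neg e6, if_neg e7, mul_one] at a
    refine z2 1 ?_
    rw [pow_one, pow_two]
    nth_rewrite 1 [a]
    group
  have six : ∀ (y : Fˣ) (c : ℕ), y ^ p ^ c = 1 → y ^ 3 = 1 := fun y j e => by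
    have a := key (Ne.symm ne) y j e _ (fun _ => rfl) i (σ i)
    simp only [c3, if_true, if_neg ne, if_neg c, if_neg n2, mul_one] at a
    rw [show y ^ 3 = y * (y⁻¹ * y * (y⁻¹ * y⁻¹))⁻¹ by group, ← a, mul_inv_cancel]
  have p3 : p = 3 := (Nat.prime_dvd_prime_iff_eq hp Nat.prime_three).mp
    (hz ▸ orderOf_dvd_of_pow_eq_one (six z 1 z1))
  have m3 : m = 3 := by
    have u : (Finset.univ : Finset (Fin m)) = {i, σ i, σ (σ i)} := by
      ext e
      simp only [Finset.mem_univ, Finset.mem_insert, Finset.mem_singleton, true_iff]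
      by_contra k
      push Not at k
      exact c4 ⟨e, k⟩
    have := congrArg Finset.card u
    rwa [Finset.card_univ, Fintype.card_fin,
      Finset.card_eq_three.mpr ⟨_, _, _, ne.symm, Ne.symm c, n2.symm, rfl⟩] at this
  obtain ⟨y, hy⟩ := IsCyclic.exists_ofOrder_eq_natCard (α := Fˣ)
  rw [Nat.card_units] at hy
  have h1 : 1 < Nat.card F := Finite.one_lt_card
  have ho := orderOf_pow_orderOf_div (x := y) (by omega) (hy ▸ h3 m3 p3)
  have := orderOf_dvd_of_pow_eq_one (six (y ^ (orderOf y / 9)) 2 (by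
    rw [p3, show 3 ^ 2 = 9 from rfl]
    exact orderOf_dvd_iff_pow_eq_one.mp ho.dvd))
  rw [ho] at this
  omega

end Pool.Agent.Lib.MP_1ae3da_al.SLI
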