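import Pool.Agent.Lib.MP_1ae3da_al.H.Xz
import Pool.Agent.Lib.MP_1ae3da_al.C2.Bo6

/-! The twisted groups of types `D₄` and `E₆` lie in the class `SplitW`. -/

namespace Pool.Agent.Lib.MP_1ae3da_al.WG

theorem twi_split {p : ℕ} (hp : p.Prime) {X : Type} [Group X] [Finite X] (hX : commutator X = ⊤)
    (h : JV.Twi p X) : SplitW p X := by
  have := Fact.mk hp
  obtain ⟨r, hr, U, N, -, h, c⟩ := h.str hp
  have : ((SLI.Tor U N).subgroupOf N).Normal := Subgroup.normal_subgroupOf_of_le_normalizer h.nrm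
  refine ⟨hX, r, U, N, _, hr.out, h.ne, h.bru, rfl, h.ab, h.nrm,
    ⟨1, fun i => if i = 0 then SLI.Tor U N else N, rfl, rfl, fun i hi => ?_⟩, h.val⟩
  obtain rfl : i = 0 := by omega
  refine ⟨inf_le_left, N ⧸ (SLI.Tor U N).subgroupOf N, inferInstance, QuotientGroup.mk' _,
    QuotientGroup.mk'_surjective _, QuotientGroup.ker_mk' _, .inl fun Q => ?_⟩
  obtain ⟨k, hk⟩ := IsPGroup.iff_card.1 Q.isPGroup'
  have d : p ^ k ∣ (SLI.Tor U N).relIndex N := hk ▸ Subgroup.card_subgroup_dvd_card _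
  obtain rfl : k = 0 := by
    by_contra e
    exact c ((dvd_pow_self p e).trans d)
  exact isCyclic_of_card_dvd_prime (p := p) (by rw [hk, pow_zero]; exact one_dvd _)

end Pool.Agent.Lib.MP_1ae3da_al.WG
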